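import Pool.Agent.Lib_helper2.GKF.FW

/-!
# The quotient bialgebra of a filtered bialgebra
-/

set_option autoImplicit false

universe u v

namespace Pool.Agent.GKF

open TensorProduct Pool.Agent.GK

section tensors
variable (k : Type u) [Field k] {H : Type v} [Ring H] [Bialgebra k H]

theorem tsp_eq (A B : Submodule k H) :
    tsp k A B = Submodule.span k {t | ∃ a ∈ A, ∃ b ∈ B, t = a ⊗ₜ[k] b} := by
  unfold tsp
  rw [Submodule.map₂_eq_span_image2]
  congr 1
  ext t
  simp only [Set.mem_image2, Set.mem_ofPred_eq, SetLike.mem_coe, TensorProduct.mk_apply]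
  constructor
  · rintro ⟨a, ha, b, hb, rfl⟩
    exact ⟨a, ha, b, hb, rfl⟩
  · rintro ⟨a, ha, b, hb, rfl⟩
    exact ⟨a, ha, b, hb, rfl⟩

theorem tmul_mem_tsp {A B : Submodule k H} {a b : H} (ha : a ∈ A) (hb : b ∈ B) : a ⊗ₜ[k] b ∈ tsp k A B := by
  rw [tsp_eq]
  exact Submodule.subset_span ⟨a, ha, b, hb, rfl⟩

theorem tsp_mono {A B A' B' : Submodule k H} (h : A ≤ A') (h' : B ≤ B') : tsp k A B ≤ tsp k A' B' :=
  Submodule.map₂_le_map₂ h h'

theorem tsp_mul (A B C D : Submodule k H) : tsp k A B * tsp k C D ≤ tsp k (A * C) (B * D) := by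
  rw [tsp_eq, tsp_eq, Submodule.span_mul_span, Submodule.span_le]
  rintro _ ⟨_, ⟨a, ha, b, hb, rfl⟩, _, ⟨c, hc, d, hd, rfl⟩, rfl⟩
  show a ⊗ₜ[k] b * c ⊗ₜ[k] d ∈ _
  rw [Algebra.TensorProduct.tmul_mul_tmul]
  exact tmul_mem_tsp k (Submodule.mul_mem_mul ha hc) (Submodule.mul_mem_mul hb hd)

theorem TZ_mul {A B C D A' B' : ℤ → Submodule k H} (h : ∀ a b, A a * C b ≤ A' (a + b))
    (h' : ∀ a b, B a * D b ≤ B' (a + b)) (a b : ℤ) : TZ k A B a * TZ k C D b ≤ TZ k A' B' (a + b) := by
  unfold TZ
  rw [Submodule.iSup_mul]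
  refine iSup_le fun i => ?_
  rw [Submodule.mul_iSup]
  refine iSup_le fun j => ?_
  refine le_trans (tsp_mul k _ _ _ _) ?_
  refine le_trans (tsp_mono k (h i j) (h' _ _)) ?_
  refine le_trans ?_ (le_iSup (fun r => tsp k (A' r) (B' (a + b - r))) (i + j))
  rw [show a - i + (b - j) = a + b - (i + j) by ring]

theorem mem_TZ {A B : ℤ → Submodule k H} {a b n : ℤ} {s t : H} (hs : s ∈ A a) (ht : t ∈ B b) (h : a + b = n) :
    s ⊗ₜ[k] t ∈ TZ k A B n := by
  unfold TZ
  refine Submodule.mem_iSup_of_mem a (tmul_mem_tsp k hs ?_)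
  rwa [show n - a = b by omega]

variable {k}
variable {E N : ℤ → Submodule k H} {m : ℕ} {x : Fin m → H} {w : Fin m → ℤ}

theorem TN_mul (h : IsFW k E N x w) (a b : ℤ) : TN k E N a * TZ k E E b ≤ TN k E N (a + b) := by
  unfold TN
  rw [Submodule.sup_mul]
  exact sup_le_sup (TZ_mul k h.mulN h.mulE a b) (TZ_mul k h.mulE h.mulN a b)

theorem mul_TN (h : IsFW k E N x w) (a b : ℤ) : TZ k E E a * TN k E N b ≤ TN k E N (a + b) := by
  unfold TN
  rw [Submodule.mul_sup]
  exact sup_le_sup (TZ_mul k h.mulN' h.mulE a b) (TZ_mul k h.mulE h.mulN' a b)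

theorem TN_le (h : IsFW k E N x w) (a : ℤ) : TN k E N a ≤ TZ k E E a := by
  unfold TN TZ
  refine sup_le (iSup_mono fun i => tsp_mono k (h.NE i) le_rfl) (iSup_mono fun i => tsp_mono k le_rfl (h.NE _))

end tensors

section free2
variable (k : Type u) [Field k] {m : ℕ} (w : Fin m → ℤ)

/-- the comultiplication of the free algebra -/
noncomputable def dT : FreeAlgebra k (Fin m) →ₐ[k] FreeAlgebra k (Fin m) ⊗[k] FreeAlgebra k (Fin m) :=
  FreeAlgebra.lift k (fun j => FreeAlgebra.ι k j ⊗ₜ[k] 1 + 1 ⊗ₜ[k] FreeAlgebra.ι k j)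

/-- span of the tensors of words of total weight `n` -/
noncomputable def ZT (n : ℤ) : Submodule k (FreeAlgebra k (Fin m) ⊗[k] FreeAlgebra k (Fin m)) :=
  Submodule.span k {t | ∃ l l' : List (Fin m), wt w l + wt w l' = n ∧ t = word k l ⊗ₜ[k] word k l'}

theorem ZT_mul (a b : ℤ) : ZT k w a * ZT k w b ≤ ZT k w (a + b) := by
  unfold ZT
  rw [Submodule.span_mul_span, Submodule.span_le]
  rintro _ ⟨_, ⟨l1, l2, h, rfl⟩, _, ⟨l3, l4, h', rfl⟩, rfl⟩
  refine Submodule.subset_span ⟨l1 ++ l3, l2 ++ l4, ?_, ?_⟩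
  · rw [wt_append, wt_append]; omega
  · show word k l1 ⊗ₜ[k] word k l2 * word k l3 ⊗ₜ[k] word k l4 = _
    rw [Algebra.TensorProduct.tmul_mul_tmul, word_append, word_append]

theorem dT_word (l : List (Fin m)) : dT k (word k l) ∈ ZT k w (wt w l) := by
  induction l with
  | nil =>
    rw [word_nil, map_one, wt_nil]
    exact Submodule.subset_span ⟨[], [], by simp [wt_nil], rfl⟩
  | cons j l ih =>
    rw [word_cons, map_mul, wt_cons]
    refine ZT_mul k w _ _ (Submodule.mul_mem_mul ?_ ih)
    unfold dT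
    rw [FreeAlgebra.lift_ι_apply]
    refine Submodule.add_mem _ (Submodule.subset_span ⟨[j], [], ?_, ?_⟩) (Submodule.subset_span ⟨[], [j], ?_, ?_⟩)
    · simp [wt]
    · simp [word]
    · simp [wt]
    · simp [word]

theorem dT_mem {n : ℤ} {f : FreeAlgebra k (Fin m)} (hf : f ∈ T k w n) : dT k f ∈ ZT k w n := by
  induction hf using Submodule.span_induction with
  | mem x hx => obtain ⟨l, rfl, rfl⟩ := hx; exact dT_word k w l
  | zero => rw [map_zero]; exact Submodule.zero_mem _
  | add x y _ _ hx hy => rw [map_add]; exact Submodule.add_mem _ hx hy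
  | smul c x _ hx => rw [map_smul]; exact Submodule.smul_mem _ _ hx

end free2

section quot
variable (k : Type u) [Field k] {H : Type v} [Ring H] [Bialgebra k H]
variable {E N : ℤ → Submodule k H} {m : ℕ} {x : Fin m → H} {w : Fin m → ℤ}

/-- evaluation of the letters -/
noncomputable def ev (x : Fin m → H) : FreeAlgebra k (Fin m) →ₐ[k] H := FreeAlgebra.lift k x

/-- null elements -/
def Null (N : ℤ → Submodule k H) (x : Fin m → H) (w : Fin m → ℤ) (f : FreeAlgebra k (Fin m)) : Prop :=
  ∀ s, ev k x (comp k w s f) ∈ N s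

theorem ev_cons (j : Fin m) (l : List (Fin m)) : ev k x (word k (j :: l)) = x j * ev k x (word k l) := by
  rw [word_cons, map_mul]
  unfold ev
  rw [FreeAlgebra.lift_ι_apply]

theorem ev_word_mem (h : IsFW k E N x w) (l : List (Fin m)) : ev k x (word k l) ∈ E (wt w l) := by
  induction l with
  | nil => rw [word_nil, map_one]; exact h.one
  | cons j l ih =>
    rw [ev_cons, wt_cons]
    exact h.mulE _ _ (Submodule.mul_mem_mul (h.xE j) ih)

theorem ev_T (h : IsFW k E N x w) {s : ℤ} {f : FreeAlgebra k (Fin m)} (hf : f ∈ T k w s) : ev k x f ∈ E s := by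
  induction hf using Submodule.span_induction with
  | mem x hx => obtain ⟨l, rfl, rfl⟩ := hx; exact ev_word_mem k h l
  | zero => rw [map_zero]; exact Submodule.zero_mem _
  | add x y _ _ hx hy => rw [map_add]; exact Submodule.add_mem _ hx hy
  | smul c x _ hx => rw [map_smul]; exact Submodule.smul_mem _ _ hx

theorem null_mul (h : IsFW k E N x w) {f : FreeAlgebra k (Fin m)} (hf : Null k N x w f)
    (g : FreeAlgebra k (Fin m)) : Null k N x w (f * g) := by
  intro s
  obtain ⟨S, hS⟩ := comp_mul k w s f g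
  rw [hS, map_sum]
  refine Submodule.sum_mem _ fun a _ => ?_
  rw [map_mul]
  have := h.mulN a (s - a) (Submodule.mul_mem_mul (hf a) (ev_T k h (comp_mem k w (s - a) g)))
  rwa [show a + (s - a) = s by ring] at this

theorem mul_null (h : IsFW k E N x w) {f : FreeAlgebra k (Fin m)} (hf : Null k N x w f)
    (g : FreeAlgebra k (Fin m)) : Null k N x w (g * f) := by
  intro s
  obtain ⟨S, hS⟩ := comp_mul k w s g f
  rw [hS, map_sum]
  refine Submodule.sum_mem _ fun a _ => ?_
  rw [map_mul]
  have := h.mulN' a (s - a) (Submodule.mul_mem_mul (ev_T k h (comp_mem k w a g)) (hf (s - a)))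
  rwa [show a + (s - a) = s by ring] at this

theorem null_add {f g : FreeAlgebra k (Fin m)} (hf : Null k N x w f) (hg : Null k N x w g) :
    Null k N x w (f + g) := fun s => by
  rw [map_add, map_add]
  exact Submodule.add_mem _ (hf s) (hg s)

theorem null_neg {f : FreeAlgebra k (Fin m)} (hf : Null k N x w f) : Null k N x w (-f) := fun s => by
  rw [map_neg, map_neg]
  exact Submodule.neg_mem _ (hf s)

/-- the ring congruence -/
def con (h : IsFW k E N x w) : RingCon (FreeAlgebra k (Fin m)) where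
  r f g := Null k N x w (f - g)
  iseqv := {
    refl := fun f s => by rw [sub_self, map_zero, map_zero]; exact Submodule.zero_mem _
    symm := fun {f g} hfg => by
      have := null_neg k hfg
      rwa [neg_sub] at this
    trans := fun {f g r} h1 h2 => by
      have := null_add k h1 h2
      rwa [sub_add_sub_cancel] at this }
  mul' {f g f' g'} h1 h2 := by
    have h3 := null_add k (null_mul k h h1 f') (mul_null k h h2 g)
    rwa [show (f - g) * f' + g * (f' - g') = f * f' - g * g' by noncomm_ring] at h3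
  add' {f g f' g'} h1 h2 := by
    have h3 := null_add k h1 h2
    rwa [show (f - g) + (f' - g') = f + f' - (g + g') by abel] at h3

/-- the quotient map -/
noncomputable def qm (h : IsFW k E N x w) : FreeAlgebra k (Fin m) →ₐ[k] (con k h).Quotient := (con k h).mkₐ k

theorem qm_surj (h : IsFW k E N x w) : Function.Surjective (qm k h) := RingCon.mkₐ_surjective (α := k) _

theorem qm_eq_zero (h : IsFW k E N x w) (f : FreeAlgebra k (Fin m)) : qm k h f = 0 ↔ Null k N x w f := by
  rw [← map_zero (qm k h)]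
  have : qm k h f = qm k h 0 ↔ con k h f 0 := (con k h).eq
  rw [this]
  show Null k N x w (f - 0) ↔ _
  rw [sub_zero]

/-- a linear map through which another one factors -/
theorem exists_factor {V W X : Type*} [AddCommGroup V] [Module k V] [AddCommGroup W] [Module k W]
    [AddCommGroup X] [Module k X] (a : V →ₗ[k] W) (b : V →ₗ[k] X) (h : ∀ v, a v = 0 → b v = 0) :
    ∃ c : W →ₗ[k] X, ∀ v, c (a v) = b v := by
  obtain ⟨s, hs⟩ := a.rangeRestrict.exists_rightInverse_of_surjective (LinearMap.range_rangeRestrict a)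
  obtain ⟨c, hc⟩ := LinearMap.exists_extend (b ∘ₗ s)
  refine ⟨c, fun v => ?_⟩
  have h1 : c (a v) = (b ∘ₗ s) (a.rangeRestrict v) := by
    rw [← hc]; rfl
  rw [h1]
  have h2 : a.rangeRestrict (s (a.rangeRestrict v)) = a.rangeRestrict v := by
    exact LinearMap.congr_fun hs (a.rangeRestrict v)
  have h3 : a (s (a.rangeRestrict v) - v) = 0 := by
    rw [map_sub, sub_eq_zero]
    exact congrArg Subtype.val h2
  have h4 := h _ h3
  rw [map_sub, sub_eq_zero] at h4
  exact h4

theorem exists_theta (h : IsFW k E N x w) (s : ℤ) : ∃ th : H →ₗ[k] (con k h).Quotient,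
    (∀ y ∈ N s, th y = 0) ∧ ∀ f ∈ T k w s, th (ev k x f) = qm k h f := by
  obtain ⟨c, hc⟩ := exists_factor k
    ((N s).mkQ ∘ₗ (ev k x).toLinearMap ∘ₗ (T k w s).subtype)
    ((qm k h).toLinearMap ∘ₗ (T k w s).subtype) (by
      rintro ⟨f, hf⟩ h0
      have h1 : ev k x f ∈ N s := (Submodule.Quotient.mk_eq_zero _).1 h0
      show qm k h f = 0
      rw [qm_eq_zero]
      intro r
      rw [comp_of_mem k w hf r]
      split_ifs with hr
      · subst hr; exact h1
      · rw [map_zero]; exact Submodule.zero_mem _)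
  refine ⟨c ∘ₗ (N s).mkQ, fun y hy => ?_, fun f hf => hc ⟨f, hf⟩⟩
  have : (N s).mkQ y = 0 := (Submodule.Quotient.mk_eq_zero _).2 hy
  rw [LinearMap.comp_apply, this, map_zero]

/-- the difference of the comultiplications is null -/
theorem cong_word (h : IsFW k E N x w) (l : List (Fin m)) :
    Coalgebra.comul (R := k) (ev k x (word k l)) ∈ TZ k E E (wt w l) ∧
    Coalgebra.comul (R := k) (ev k x (word k l)) -
      Algebra.TensorProduct.map (ev k x) (ev k x) (dT k (word k l)) ∈ TN k E N (wt w l) := by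
  induction l with
  | nil =>
    rw [word_nil, map_one, Bialgebra.comul_one, wt_nil, map_one, map_one, sub_self]
    exact ⟨mem_TZ k h.one h.one rfl, Submodule.zero_mem _⟩
  | cons j l ih =>
    obtain ⟨ih1, ih2⟩ := ih
    have hd : dT k (word k (j :: l)) = (FreeAlgebra.ι k j ⊗ₜ[k] 1 + 1 ⊗ₜ[k] FreeAlgebra.ι k j) * dT k (word k l) := by
      rw [word_cons, map_mul]
      unfold dT
      rw [FreeAlgebra.lift_ι_apply]
    have hm : Algebra.TensorProduct.map (ev k x) (ev k x)
        ((FreeAlgebra.ι k j ⊗ₜ[k] 1 + 1 ⊗ₜ[k] FreeAlgebra.ι k j) : FreeAlgebra k (Fin m) ⊗[k] FreeAlgebra k (Fin m)) =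
        x j ⊗ₜ[k] (1 : H) + (1 : H) ⊗ₜ[k] x j := by
      rw [map_add, Algebra.TensorProduct.map_tmul, Algebra.TensorProduct.map_tmul, map_one]
      unfold ev
      rw [FreeAlgebra.lift_ι_apply]
    have hp : x j ⊗ₜ[k] (1 : H) + (1 : H) ⊗ₜ[k] x j ∈ TZ k E E (w j) :=
      Submodule.add_mem _ (mem_TZ k (h.xE j) h.one (add_zero _)) (mem_TZ k h.one (h.xE j) (zero_add _))
    have hq := h.xP j
    have hx : Coalgebra.comul (R := k) (x j) ∈ TZ k E E (w j) := by
      have := Submodule.add_mem _ (TN_le h _ hq) hp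
      rwa [show Coalgebra.comul (R := k) (x j) - x j ⊗ₜ[k] (1 : H) - (1 : H) ⊗ₜ[k] x j +
        (x j ⊗ₜ[k] (1 : H) + (1 : H) ⊗ₜ[k] x j) = Coalgebra.comul (R := k) (x j) by abel] at this
    have hEE : TZ k E E (w j) * TZ k E E (wt w l) ≤ TZ k E E (w j + wt w l) := TZ_mul k h.mulE h.mulE _ _
    rw [ev_cons, Bialgebra.comul_mul, hd, map_mul, hm, wt_cons]
    refine ⟨hEE (Submodule.mul_mem_mul hx ih1), ?_⟩
    have h1 := TN_mul h _ _ (Submodule.mul_mem_mul hq ih1)
    have h2 := mul_TN h _ _ (Submodule.mul_mem_mul hp ih2)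
    have h3 := Submodule.add_mem _ h1 h2
    rwa [show (Coalgebra.comul (R := k) (x j) - x j ⊗ₜ[k] (1 : H) - (1 : H) ⊗ₜ[k] x j) *
        Coalgebra.comul (R := k) (ev k x (word k l)) + (x j ⊗ₜ[k] (1 : H) + (1 : H) ⊗ₜ[k] x j) *
        (Coalgebra.comul (R := k) (ev k x (word k l)) -
          Algebra.TensorProduct.map (ev k x) (ev k x) (dT k (word k l))) =
        Coalgebra.comul (R := k) (x j) * Coalgebra.comul (R := k) (ev k x (word k l)) -
          (x j ⊗ₜ[k] (1 : H) + (1 : H) ⊗ₜ[k] x j) *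
          Algebra.TensorProduct.map (ev k x) (ev k x) (dT k (word k l)) by noncomm_ring] at h3

theorem cong_T (h : IsFW k E N x w) {n : ℤ} {f : FreeAlgebra k (Fin m)} (hf : f ∈ T k w n) :
    Coalgebra.comul (R := k) (ev k x f) -
      Algebra.TensorProduct.map (ev k x) (ev k x) (dT k f) ∈ TN k E N n := by
  induction hf using Submodule.span_induction with
  | mem y hy => obtain ⟨l, rfl, rfl⟩ := hy; exact (cong_word k h l).2
  | zero => simp only [map_zero, sub_zero]; exact Submodule.zero_mem _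
  | add y z _ _ hy hz =>
    simp only [map_add]
    rw [add_sub_add_comm]
    exact Submodule.add_mem _ hy hz
  | smul c y _ hy =>
    simp only [map_smul]
    rw [← smul_sub]
    exact Submodule.smul_mem _ _ hy

/-- the functionals kill the null tensors -/
theorem theta_kill {X : Type*} [AddCommGroup X] [Module k X] (h : IsFW k E N x w) (n s : ℤ) {a b : H →ₗ[k] X}
    (ha : ∀ y ∈ N s, a y = 0) (hb : ∀ y ∈ N (n - s), b y = 0) {t : H ⊗[k] H} (ht : t ∈ TN k E N n) :
    TensorProduct.map a b t = 0 := by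
  have hE : ∀ r, r < s → ∀ y ∈ E r, a y = 0 := fun r hr y hy => ha y (h.EN _ _ hr hy)
  have hE' : ∀ r, r < n - s → ∀ y ∈ E r, b y = 0 := fun r hr y hy => hb y (h.EN _ _ hr hy)
  have key : ∀ r, ∀ u v : H, (u ∈ N r ∧ v ∈ E (n - r)) ∨ (u ∈ E r ∧ v ∈ N (n - r)) → a u = 0 ∨ b v = 0 := by
    rintro r u v (⟨hu, hv⟩ | ⟨hu, hv⟩)
    · rcases lt_trichotomy r s with hr | hr | hr
      · exact Or.inl (hE r hr u (h.NE _ hu))
      · subst hr; exact Or.inl (ha u hu)
      · exact Or.inr (hE' _ (by omega) v hv)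
    · rcases lt_trichotomy r s with hr | hr | hr
      · exact Or.inl (hE r hr u hu)
      · subst hr; exact Or.inr (hb v hv)
      · exact Or.inr (hE' _ (by omega) v (h.NE _ hv))
  have hle : TN k E N n ≤ LinearMap.ker (TensorProduct.map a b) := by
    unfold TN TZ
    refine sup_le (iSup_le fun r => ?_) (iSup_le fun r => ?_)
    · rw [tsp_eq, Submodule.span_le]
      rintro _ ⟨u, hu, v, hv, rfl⟩
      show TensorProduct.map a b (u ⊗ₜ[k] v) = 0
      rw [TensorProduct.map_tmul]
      rcases key r u v (Or.inl ⟨hu, hv⟩) with h0 | h0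
      · rw [h0, TensorProduct.zero_tmul]
      · rw [h0, TensorProduct.tmul_zero]
    · rw [tsp_eq, Submodule.span_le]
      rintro _ ⟨u, hu, v, hv, rfl⟩
      show TensorProduct.map a b (u ⊗ₜ[k] v) = 0
      rw [TensorProduct.map_tmul]
      rcases key r u v (Or.inr ⟨hu, hv⟩) with h0 | h0
      · rw [h0, TensorProduct.zero_tmul]
      · rw [h0, TensorProduct.tmul_zero]
  exact hle ht

/-- reconstruction of `q ⊗ q` on tensors of total weight `n` -/
theorem recon (h : IsFW k E N x w) (th : ℤ → H →ₗ[k] (con k h).Quotient)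
    (h0 : ∀ s, ∀ y ∈ N s, th s y = 0) (h1 : ∀ s, ∀ f ∈ T k w s, th s (ev k x f) = qm k h f) (n : ℤ)
    {z : FreeAlgebra k (Fin m) ⊗[k] FreeAlgebra k (Fin m)} (hz : z ∈ ZT k w n) :
    ∃ S : Finset ℤ, ∀ S', S ⊆ S' → Algebra.TensorProduct.map (qm k h) (qm k h) z =
      ∑ s ∈ S', TensorProduct.map (th s) (th (n - s)) (Algebra.TensorProduct.map (ev k x) (ev k x) z) := by
  induction hz using Submodule.span_induction with
  | mem z hz =>
    obtain ⟨l, l', hl, rfl⟩ := hz
    refine ⟨{wt w l}, fun S' hS => ?_⟩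
    have key : ∀ s ∈ S', TensorProduct.map (th s) (th (n - s))
        (Algebra.TensorProduct.map (ev k x) (ev k x) (word k l ⊗ₜ[k] word k l')) =
        if wt w l = s then qm k h (word k l) ⊗ₜ[k] qm k h (word k l') else 0 := by
      intro s _
      rw [Algebra.TensorProduct.map_tmul, TensorProduct.map_tmul]
      rcases lt_trichotomy (wt w l) s with hs | hs | hs
      · rw [h0 s _ (h.EN _ _ hs (ev_word_mem k h l)), TensorProduct.zero_tmul, if_neg hs.ne]
      · rw [if_pos hs, h1 s (word k l) (Submodule.subset_span ⟨l, hs, rfl⟩),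
          h1 (n - s) (word k l') (Submodule.subset_span ⟨l', by omega, rfl⟩)]
      · rw [h0 (n - s) _ (h.EN _ _ (show wt w l' < n - s by omega) (ev_word_mem k h l')),
          TensorProduct.tmul_zero, if_neg hs.ne']
    rw [Finset.sum_congr rfl key, Finset.sum_ite_eq, if_pos (hS (Finset.mem_singleton_self _)),
      Algebra.TensorProduct.map_tmul]
  | zero => exact ⟨∅, fun S' _ => by simp⟩
  | add y z _ _ hy hz =>
    obtain ⟨S, hS⟩ := hy
    obtain ⟨S', hS'⟩ := hz
    refine ⟨S ∪ S', fun S'' h' => ?_⟩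
    simp only [map_add, Finset.sum_add_distrib]
    rw [← hS _ (Finset.subset_union_left.trans h'), ← hS' _ (Finset.subset_union_right.trans h')]
  | smul c y _ hy =>
    obtain ⟨S, hS⟩ := hy
    refine ⟨S, fun S'' h' => ?_⟩
    simp only [map_smul, ← Finset.smul_sum]
    rw [← hS _ h']

/-- the comultiplication descends -/
theorem descend (h : IsFW k E N x w) {f : FreeAlgebra k (Fin m)} (hf : Null k N x w f) :
    Algebra.TensorProduct.map (qm k h) (qm k h) (dT k f) = 0 := by
  choose th h0 h1 using exists_theta k h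
  have key : ∀ n, Algebra.TensorProduct.map (qm k h) (qm k h) (dT k (comp k w n f)) = 0 := by
    intro n
    have hc := comp_mem k w n f
    obtain ⟨S, hS⟩ := recon k h th h0 h1 n (dT_mem k w hc)
    rw [hS S subset_rfl]
    refine Finset.sum_eq_zero fun s _ => ?_
    refine theta_kill k h n s (h0 s) (h0 (n - s)) ?_
    have h2 := Submodule.sub_mem _ (h.comN n _ (hf n)) (cong_T k h hc)
    rwa [sub_sub_cancel] at h2
  obtain ⟨S, hS⟩ := sum_comp k w f
  rw [hS S subset_rfl, map_sum, map_sum]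
  exact Finset.sum_eq_zero fun n _ => key n

/-- the counit of the free algebra -/
noncomputable def eT : FreeAlgebra k (Fin m) →ₐ[k] k := FreeAlgebra.lift k (fun _ => 0)

theorem eT_word (h : IsFW k E N x w) (l : List (Fin m)) :
    Coalgebra.counit (R := k) (ev k x (word k l)) = eT k (word k l) := by
  cases l with
  | nil => rw [word_nil, map_one (ev k x), Bialgebra.counit_one, map_one]
  | cons j l =>
    rw [ev_cons, Bialgebra.counit_mul, h.x0, zero_mul, word_cons, map_mul]
    unfold eT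
    rw [FreeAlgebra.lift_ι_apply, zero_mul]

theorem eT_ev (h : IsFW k E N x w) (f : FreeAlgebra k (Fin m)) :
    Coalgebra.counit (R := k) (ev k x f) = eT k f := by
  induction f using word_induction (k := k) with
  | h0 l => exact eT_word k h l
  | hadd f g hf hg => simp only [map_add, hf, hg]
  | hsmul c f hf => simp only [map_smul, hf]
  | hz => simp only [map_zero]

theorem eT_T {s : ℤ} (hs : s ≠ 0) {f : FreeAlgebra k (Fin m)} (hf : f ∈ T k w s) : eT k f = 0 := by
  induction hf using Submodule.span_induction with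
  | mem y hy =>
    obtain ⟨l, hl, rfl⟩ := hy
    cases l with
    | nil => exact absurd hl.symm hs
    | cons j l =>
      rw [word_cons, map_mul]
      unfold eT
      rw [FreeAlgebra.lift_ι_apply, zero_mul]
  | zero => rw [map_zero]
  | add y z _ _ hy hz => rw [map_add, hy, hz, add_zero]
  | smul c y _ hy => rw [map_smul, hy, smul_zero]

theorem eT_null (h : IsFW k E N x w) {f : FreeAlgebra k (Fin m)} (hf : Null k N x w f) : eT k f = 0 := by
  obtain ⟨S, hS⟩ := sum_comp k w f
  rw [hS S subset_rfl, map_sum]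
  refine Finset.sum_eq_zero fun s _ => ?_
  by_cases hs : s = 0
  · subst hs
    rw [← eT_ev k h]
    exact h.N0 _ (hf 0)
  · exact eT_T k hs (comp_mem k w s f)

/-- comultiplication of the quotient -/
noncomputable def dB (h : IsFW k E N x w) :
    (con k h).Quotient →ₐ[k] (con k h).Quotient ⊗[k] (con k h).Quotient :=
  RingCon.liftₐ (con k h) ((Algebra.TensorProduct.map (qm k h) (qm k h)).comp (dT k)) (by
    intro f g hfg
    show (Algebra.TensorProduct.map (qm k h) (qm k h)) (dT k f) =
      (Algebra.TensorProduct.map (qm k h) (qm k h)) (dT k g)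
    have h1 := descend k h hfg
    rw [map_sub, map_sub, sub_eq_zero] at h1
    exact h1)

/-- counit of the quotient -/
noncomputable def eB (h : IsFW k E N x w) : (con k h).Quotient →ₐ[k] k :=
  RingCon.liftₐ (con k h) (eT k) (by
    intro f g hfg
    show eT k f = eT k g
    rw [← sub_eq_zero, ← map_sub]
    exact eT_null k h hfg)

theorem dB_qm (h : IsFW k E N x w) (f : FreeAlgebra k (Fin m)) :
    dB k h (qm k h f) = Algebra.TensorProduct.map (qm k h) (qm k h) (dT k f) := rfl

theorem eB_qm (h : IsFW k E N x w) (f : FreeAlgebra k (Fin m)) : eB k h (qm k h f) = eT k f := rfl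

theorem hom_ext_q (h : IsFW k E N x w) {X : Type*} [Semiring X] [Algebra k X]
    {a b : (con k h).Quotient →ₐ[k] X} (hab : ∀ j, a (qm k h (FreeAlgebra.ι k j)) = b (qm k h (FreeAlgebra.ι k j))) :
    a = b := by
  have h1 : a.comp (qm k h) = b.comp (qm k h) := by
    apply FreeAlgebra.hom_ext
    funext j
    exact hab j
  refine AlgHom.ext fun y => ?_
  obtain ⟨f, rfl⟩ := qm_surj k h y
  exact DFunLike.congr_fun h1 f

theorem dB_gen (h : IsFW k E N x w) (j : Fin m) : dB k h (qm k h (FreeAlgebra.ι k j)) =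
    qm k h (FreeAlgebra.ι k j) ⊗ₜ[k] 1 + 1 ⊗ₜ[k] qm k h (FreeAlgebra.ι k j) := by
  rw [dB_qm]
  unfold dT
  rw [FreeAlgebra.lift_ι_apply, map_add, Algebra.TensorProduct.map_tmul, Algebra.TensorProduct.map_tmul, map_one]

theorem eB_gen (h : IsFW k E N x w) (j : Fin m) : eB k h (qm k h (FreeAlgebra.ι k j)) = 0 := by
  rw [eB_qm]
  unfold eT
  rw [FreeAlgebra.lift_ι_apply]

/-- the bialgebra -/
@[reducible] noncomputable def bialg (h : IsFW k E N x w) : Bialgebra k (con k h).Quotient :=
  Bialgebra.ofAlgHom (dB k h) (eB k h)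
    (by
      apply hom_ext_q k h
      intro j
      simp only [AlgHom.comp_apply, dB_gen, map_add, Algebra.TensorProduct.map_tmul, AlgHom.coe_id, id_eq,
        map_one, TensorProduct.add_tmul, TensorProduct.tmul_add, Algebra.TensorProduct.one_def]
      abel)
    (by
      apply hom_ext_q k h
      intro j
      simp only [AlgHom.comp_apply, dB_gen, map_add, Algebra.TensorProduct.map_tmul, AlgHom.coe_id, id_eq,
        map_one, eB_gen, TensorProduct.zero_tmul, zero_add]
      rfl)
    (by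
      apply hom_ext_q k h
      intro j
      simp only [AlgHom.comp_apply, dB_gen, map_add, Algebra.TensorProduct.map_tmul, AlgHom.coe_id, id_eq,
        map_one, eB_gen, TensorProduct.tmul_zero, add_zero]
      rfl)

/-- The quotient bialgebra: generated by the primitive elements `q X_j`. -/
theorem exists_quot (h : IsFW k E N x w) : ∃ (B : Type u) (_ : Ring B) (_ : Bialgebra k B)
    (q : FreeAlgebra k (Fin m) →ₐ[k] B), Function.Surjective q ∧
    (∀ j, Coalgebra.comul (R := k) (q (FreeAlgebra.ι k j)) =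
      q (FreeAlgebra.ι k j) ⊗ₜ[k] 1 + 1 ⊗ₜ[k] q (FreeAlgebra.ι k j)) ∧
    (∀ f, q f = 0 ↔ Null k N x w f) := by
  let _ := bialg k h
  exact ⟨(con k h).Quotient, inferInstance, bialg k h, qm k h, qm_surj k h, dB_gen k h, qm_eq_zero k h⟩

end quot

end Pool.Agent.GKF
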