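import Pool.Agent.Lib_helper2.GKF.COR
import Pool.Agent.Lib_helper2.GKF.FW2

/-!
# The chain of subcoalgebras over a subcoalgebra which contains the coradical
-/

set_option autoImplicit false

universe u v

namespace Pool.Agent.GKF

open TensorProduct Pool.Agent.GK

section abs
variable {k : Type u} [Field k] {H : Type v} [AddCommGroup H] [Module k H]

/-- a finite-dimensional space lies in a finite-dimensional stable one -/
theorem CP.fund {ε : Module.Dual k H} {L R : Module.Dual k H →ₗ[k] H →ₗ[k] H} (h : CP k ε L R)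
    (V : Submodule k H) (hV : V.FG) : ∃ C : Submodule k H, V ≤ C ∧ C.FG ∧
    (∀ f, ∀ x ∈ C, L f x ∈ C) ∧ (∀ f, ∀ x ∈ C, R f x ∈ C) := by
  set V1 : Submodule k H := ⨆ g, V.map (R g) with hV1
  have h1 : V1.FG := h.fg_closure V hV
  have hR1 : ∀ f, ∀ x ∈ V1, R f x ∈ V1 := by
    intro f x hx
    have h2 : V1 ≤ V1.comap (R f) := by
      conv_lhs => rw [hV1]
      refine iSup_le fun g => ?_
      rintro _ ⟨z, hz, rfl⟩
      obtain ⟨g', hg'⟩ := h.RR f g
      rw [Submodule.mem_comap, hg']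
      exact Submodule.mem_iSup_of_mem g' (Submodule.mem_map_of_mem hz)
    exact h2 hx
  set C : Submodule k H := ⨆ g, V1.map (L g) with hC
  refine ⟨C, ?_, h.symm.fg_closure V1 h1, ?_, ?_⟩
  · intro x hx
    have h2 : x ∈ V1 := by
      rw [← h.Rε x]
      exact Submodule.mem_iSup_of_mem ε (Submodule.mem_map_of_mem hx)
    rw [← h.Lε x]
    exact Submodule.mem_iSup_of_mem ε (Submodule.mem_map_of_mem h2)
  · intro f x hx
    have h2 : C ≤ C.comap (L f) := by
      conv_lhs => rw [hC]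
      refine iSup_le fun g => ?_
      rintro _ ⟨z, hz, rfl⟩
      obtain ⟨g', hg'⟩ := h.LL f g
      rw [Submodule.mem_comap, hg']
      exact Submodule.mem_iSup_of_mem g' (Submodule.mem_map_of_mem hz)
    exact h2 hx
  · intro f x hx
    have h2 : C ≤ C.comap (R f) := by
      conv_lhs => rw [hC]
      refine iSup_le fun g => ?_
      rintro _ ⟨z, hz, rfl⟩
      rw [Submodule.mem_comap, ← h.LR]
      exact Submodule.mem_iSup_of_mem g (Submodule.mem_map_of_mem (hR1 f z hz))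
    exact h2 hx

/-- the next step of the chain -/
def nx (K C : Submodule k H) (L R : Module.Dual k H →ₗ[k] H →ₗ[k] H) (D : Submodule k H) : Submodule k H where
  carrier := {x | x ∈ C ∧ ∀ f : Module.Dual k H, (∀ κ ∈ K, f κ = 0) → L f x ∈ D ∧ R f x ∈ D}
  zero_mem' := ⟨C.zero_mem, fun f _ => by simp⟩
  add_mem' := by
    rintro x y ⟨hx, hx'⟩ ⟨hy, hy'⟩
    refine ⟨C.add_mem hx hy, fun f hf => ?_⟩
    rw [map_add, map_add]
    exact ⟨D.add_mem (hx' f hf).1 (hy' f hf).1, D.add_mem (hx' f hf).2 (hy' f hf).2⟩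
  smul_mem' := by
    rintro c x ⟨hx, hx'⟩
    refine ⟨C.smul_mem c hx, fun f hf => ?_⟩
    rw [map_smul, map_smul]
    exact ⟨D.smul_mem c (hx' f hf).1, D.smul_mem c (hx' f hf).2⟩

variable {ε : Module.Dual k H} {L R : Module.Dual k H →ₗ[k] H →ₗ[k] H}

theorem nx_le (K C D : Submodule k H) : nx K C L R D ≤ C := fun _ hx => hx.1

theorem le_nx (K C D : Submodule k H) (hDC : D ≤ C) (hDL : ∀ f, ∀ x ∈ D, L f x ∈ D)
    (hDR : ∀ f, ∀ x ∈ D, R f x ∈ D) : D ≤ nx K C L R D :=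
  fun x hx => ⟨hDC hx, fun f _ => ⟨hDL f x hx, hDR f x hx⟩⟩

theorem CP.nx_L (h : CP k ε L R) (K C D : Submodule k H) (hKL : ∀ f, ∀ x ∈ K, L f x ∈ K)
    (hCL : ∀ f, ∀ x ∈ C, L f x ∈ C) (hDL : ∀ f, ∀ x ∈ D, L f x ∈ D) :
    ∀ f, ∀ x ∈ nx K C L R D, L f x ∈ nx K C L R D := by
  rintro g x ⟨hx, hx'⟩
  refine ⟨hCL g x hx, fun f hf => ⟨?_, ?_⟩⟩
  · obtain ⟨q, hq⟩ := h.LL f g
    rw [hq]
    refine (hx' q ?_).1
    intro κ hκ
    rw [← h.εL q κ, ← hq, h.εL]
    exact hf _ (hKL g κ hκ)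
  · rw [← h.LR]
    exact hDL g _ (hx' f hf).2

theorem nx_symm (K C D : Submodule k H) : nx K C R L D = nx K C L R D := by
  ext x
  exact ⟨fun hx => ⟨hx.1, fun f hf => (hx.2 f hf).symm⟩, fun hx => ⟨hx.1, fun f hf => (hx.2 f hf).symm⟩⟩

theorem CP.nx_R (h : CP k ε L R) (K C D : Submodule k H) (hKR : ∀ f, ∀ x ∈ K, R f x ∈ K)
    (hCR : ∀ f, ∀ x ∈ C, R f x ∈ C) (hDR : ∀ f, ∀ x ∈ D, R f x ∈ D) :
    ∀ f, ∀ x ∈ nx K C L R D, R f x ∈ nx K C L R D := by
  have := h.symm.nx_L K C D hKR hCR hDR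
  rwa [nx_symm] at this

/-- the simple stable subspaces lie in `K` -/
def SimpleLe (K : Submodule k H) (L R : Module.Dual k H →ₗ[k] H →ₗ[k] H) : Prop :=
  ∀ F : Submodule k H, F.FG → F ≠ ⊥ → (∀ f, ∀ x ∈ F, L f x ∈ F) → (∀ f, ∀ x ∈ F, R f x ∈ F) →
      (∀ F' ≤ F, (∀ f, ∀ x ∈ F', L f x ∈ F') → (∀ f, ∀ x ∈ F', R f x ∈ F') → F' = ⊥ ∨ F' = F) → F ≤ K

theorem CP.nx_ne (h : CP k ε L R) (K C D : Submodule k H) (hK : SimpleLe K L R)
    (hC : C.FG) (hDC : D ≤ C) (hne : D ≠ C)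
    (hCL : ∀ f, ∀ x ∈ C, L f x ∈ C) (hCR : ∀ f, ∀ x ∈ C, R f x ∈ C)
    (hDL : ∀ f, ∀ x ∈ D, L f x ∈ D) (hDR : ∀ f, ∀ x ∈ D, R f x ∈ D) :
    ∃ x ∈ nx K C L R D, x ∉ D := by
  obtain ⟨x, hxC, hxD, hx⟩ := h.key K hK D C hC hDC hne hDL hCL
  let X : Submodule k H :=
    { carrier := {x | x ∈ C ∧ ∀ f : Module.Dual k H, (∀ κ ∈ K, f κ = 0) → L f x ∈ D}
      zero_mem' := ⟨C.zero_mem, fun f _ => by simp⟩
      add_mem' := by
        rintro x y ⟨hx, hx'⟩ ⟨hy, hy'⟩
        refine ⟨C.add_mem hx hy, fun f hf => ?_⟩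
        rw [map_add]
        exact D.add_mem (hx' f hf) (hy' f hf)
      smul_mem' := by
        rintro c x ⟨hx, hx'⟩
        refine ⟨C.smul_mem c hx, fun f hf => ?_⟩
        rw [map_smul]
        exact D.smul_mem c (hx' f hf) }
  have hDX : D ≤ X := fun y hy => ⟨hDC hy, fun f _ => hDL f y hy⟩
  have hXC : X ≤ C := fun y hy => hy.1
  have hXfg : X.FG := by
    have := Module.Finite.iff_fg.2 hC
    have := Submodule.finiteDimensional_of_le hXC
    exact Module.Finite.iff_fg.1 this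
  have hXR : ∀ f, ∀ x ∈ X, R f x ∈ X := by
    rintro g y ⟨hy, hy'⟩
    refine ⟨hCR g y hy, fun f hf => ?_⟩
    rw [h.LR]
    exact hDR g _ (hy' f hf)
  have hK' : SimpleLe K R L := fun F h1 h2 h3 h4 h5 => hK F h1 h2 h4 h3 fun F' h6 h7 h8 => h5 F' h6 h8 h7
  have hDX' : D ≠ X := by
    intro heq
    apply hxD
    rw [heq]
    exact ⟨hxC, hx⟩
  obtain ⟨y, hyX, hyD, hy⟩ := h.symm.key K hK' D X hXfg hDX hDX' hDR hXR
  exact ⟨y, ⟨hyX.1, fun f hf => ⟨hyX.2 f hf, hy f hf⟩⟩, hyD⟩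

/-- the chain -/
theorem CP.chain (h : CP k ε L R) (K C : Submodule k H) (hK : SimpleLe K L R)
    (hKL : ∀ f, ∀ x ∈ K, L f x ∈ K) (hKR : ∀ f, ∀ x ∈ K, R f x ∈ K)
    (hC : C.FG) (hCL : ∀ f, ∀ x ∈ C, L f x ∈ C) (hCR : ∀ f, ∀ x ∈ C, R f x ∈ C) :
    ∃ (r : ℕ) (D : ℕ → Submodule k H), D 0 = C ⊓ K ∧ D r = C ∧ Monotone D ∧ (∀ i, D i ≤ C) ∧
      (∀ i f, ∀ x ∈ D i, L f x ∈ D i) ∧ (∀ i f, ∀ x ∈ D i, R f x ∈ D i) ∧
      ∀ i, ∀ x ∈ D (i + 1), ∀ f : Module.Dual k H, (∀ κ ∈ K, f κ = 0) → L f x ∈ D i ∧ R f x ∈ D i := by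
  let D : ℕ → Submodule k H := fun i => (nx K C L R)^[i] (C ⊓ K)
  have hD1 : ∀ i, D (i + 1) = nx K C L R (D i) := fun i => Function.iterate_succ_apply' _ _ _
  have hst : ∀ i, D i ≤ C ∧ (∀ f, ∀ x ∈ D i, L f x ∈ D i) ∧ (∀ f, ∀ x ∈ D i, R f x ∈ D i) := by
    intro i
    induction i with
    | zero =>
      exact ⟨inf_le_left, fun f x hx => ⟨hCL f x hx.1, hKL f x hx.2⟩, fun f x hx => ⟨hCR f x hx.1, hKR f x hx.2⟩⟩
    | succ i ih =>
      rw [hD1]
      exact ⟨nx_le K C _, h.nx_L K C _ hKL hCL ih.2.1, h.nx_R K C _ hKR hCR ih.2.2⟩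
  have hmono1 : ∀ i, D i ≤ D (i + 1) := by
    intro i
    rw [hD1]
    exact le_nx K C _ (hst i).1 (hst i).2.1 (hst i).2.2
  have hfin : Module.Finite k C := Module.Finite.iff_fg.2 hC
  have hr : ∃ r, D r = C := by
    by_contra hcon
    push Not at hcon
    have hlt : ∀ i, i ≤ Module.finrank k (D i) := by
      intro i
      induction i with
      | zero => exact Nat.zero_le _
      | succ i ih =>
        obtain ⟨x, hx, hx'⟩ := h.nx_ne K C (D i) hK hC (hst i).1 (hcon i) hCL hCR (hst i).2.1 (hst i).2.2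
        rw [← hD1] at hx
        have h1 : D i < D (i + 1) := lt_of_le_of_ne (hmono1 i) fun heq => hx' (heq ▸ hx)
        have := Submodule.finiteDimensional_of_le (hst (i + 1)).1
        have h2 := Submodule.finrank_lt_finrank_of_lt h1
        omega
    have h1 := hlt (Module.finrank k C + 1)
    have h2 := Submodule.finrank_mono (hst (Module.finrank k C + 1)).1
    omega
  obtain ⟨r, hr⟩ := hr
  refine ⟨r, D, rfl, hr, monotone_nat_of_le_succ hmono1, fun i => (hst i).1, fun i => (hst i).2.1,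
    fun i => (hst i).2.2, fun i x hx f hf => ?_⟩
  rw [hD1] at hx
  exact hx.2 f hf

/-- a projection onto `K` which maps `C` to `C ⊓ K` -/
theorem exists_proj (K C : Submodule k H) : ∃ P : H →ₗ[k] H, (∀ x ∈ K, P x = x) ∧ ∀ x ∈ C, P x ∈ C ⊓ K := by
  obtain ⟨A, hA⟩ := Submodule.exists_isCompl ((C ⊓ K).comap C.subtype)
  set A' : Submodule k H := A.map C.subtype with hA'
  have hAC : A' ≤ C := by
    rintro _ ⟨a, _, rfl⟩
    exact a.2
  have hKA : K ⊓ A' = ⊥ := by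
    rw [eq_bot_iff]
    rintro x ⟨hx, a, ha, rfl⟩
    have h1 : a ∈ (C ⊓ K).comap C.subtype ⊓ A := ⟨⟨a.2, hx⟩, ha⟩
    rw [hA.inf_eq_bot, Submodule.mem_bot] at h1
    rw [h1]
    simp
  obtain ⟨Q, hQ⟩ := Submodule.exists_isCompl (K ⊔ A')
  have hcomp : IsCompl K (A' ⊔ Q) := by
    constructor
    · rw [Submodule.disjoint_def]
      intro x hx hx'
      obtain ⟨w, hw, q, hq, rfl⟩ := Submodule.mem_sup.1 hx'
      have h1 : q ∈ (K ⊔ A') ⊓ Q := by
        refine ⟨?_, hq⟩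
        have h2 : q = (w + q) - w := by abel
        rw [SetLike.mem_coe, h2]
        exact Submodule.sub_mem _ (Submodule.mem_sup_left hx) (Submodule.mem_sup_right hw)
      rw [hQ.inf_eq_bot, Submodule.mem_bot] at h1
      rw [h1, add_zero] at hx ⊢
      have h3 : w ∈ K ⊓ A' := ⟨hx, hw⟩
      rwa [hKA, Submodule.mem_bot] at h3
    · rw [codisjoint_iff, ← sup_assoc]
      exact hQ.sup_eq_top
  have hPK : ∀ g ∈ K, (K.subtype ∘ₗ Submodule.projectionOnto K (A' ⊔ Q) hcomp) g = g := by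
    intro g hg
    have := Submodule.projectionOnto_apply_left hcomp ⟨g, hg⟩
    rw [LinearMap.comp_apply, this]
    rfl
  refine ⟨K.subtype ∘ₗ Submodule.projectionOnto K (A' ⊔ Q) hcomp, hPK, fun x hx => ?_⟩
  have h1 : (⟨x, hx⟩ : C) ∈ (C ⊓ K).comap C.subtype ⊔ A := by rw [hA.sup_eq_top]; trivial
  obtain ⟨y, hy, a, ha, hya⟩ := Submodule.mem_sup.1 h1
  have h2 : x = y.1 + a.1 := by
    have := congrArg Subtype.val hya
    exact this.symm
  have h3 : (K.subtype ∘ₗ Submodule.projectionOnto K (A' ⊔ Q) hcomp) a.1 = 0 := by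
    have := (Submodule.projectionOnto_apply_eq_zero_iff hcomp (x := a.1)).2
        (Submodule.mem_sup_left (Submodule.mem_map_of_mem (f := C.subtype) ha))
    rw [LinearMap.comp_apply, this, map_zero]
  have hy' : y.1 ∈ C ⊓ K := hy
  rw [h2, map_add, h3, add_zero, hPK _ hy'.2]
  exact hy'

end abs

section bialg
variable (k : Type u) [Field k] {H : Type v} [Ring H] [Bialgebra k H]

theorem cp_inst : CP k (Coalgebra.counit (R := k) (A := H)) (FLAG_L k) (FLAG_R k) where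
  LR := FLAG_LR k
  LL := fun f g => ⟨_, FLAG_LL k f g⟩
  RR := fun f g => ⟨_, FLAG_RR k f g⟩
  Lε := FLAG_Lcounit k
  Rε := FLAG_Rcounit k
  εL := FLAG_counitL k
  εR := FLAG_counitR k
  finL := fun x => FLAG_finL k (Coalgebra.comul (R := k) x)
  finR := fun x => FLAG_finR k (Coalgebra.comul (R := k) x)

theorem simpleLe_of_coradical (K : Submodule k H) (hK : coradical k H ≤ K) :
    SimpleLe K (FLAG_L k) (FLAG_R k) := by
  intro F _ h0 h1 h2 h3
  refine le_trans (le_sSup ?_) hK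
  refine ⟨(FLAG_sub_iff k F).2 ⟨h1, h2⟩, h0, fun E hE hEF => ?_⟩
  exact h3 E hEF ((FLAG_sub_iff k E).1 hE).1 ((FLAG_sub_iff k E).1 hE).2

theorem map_tsp {A B A' B' : Submodule k H} {f g : H →ₗ[k] H} (hf : ∀ x ∈ A, f x ∈ A') (hg : ∀ x ∈ B, g x ∈ B')
    {t : H ⊗[k] H} (ht : t ∈ tsp k A B) : TensorProduct.map f g t ∈ tsp k A' B' := by
  have : tsp k A B ≤ (tsp k A' B').comap (TensorProduct.map f g) := by
    rw [tsp, Submodule.map₂_le]
    intro a ha b hb
    rw [Submodule.mem_comap, TensorProduct.mk_apply, TensorProduct.map_tmul]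
    exact tmul_mem_tsp k (hf a ha) (hg b hb)
  exact this ht

/-- the linear algebra of one step -/
theorem step_tsp (K C D D' : Submodule k H) (h0 : C ⊓ K ≤ D) (hDD' : D ≤ D') (hD'C : D' ≤ C) {x : H}
    (hx : Coalgebra.comul (R := k) x ∈ tsp k D' D')
    (hf : ∀ f : Module.Dual k H, (∀ κ ∈ K, f κ = 0) → FLAG_L k f x ∈ D ∧ FLAG_R k f x ∈ D) :
    Coalgebra.comul (R := k) x ∈ tsp k D' (C ⊓ K) ⊔ tsp k (C ⊓ K) D' ⊔ tsp k D D := by
  obtain ⟨P, hPK, hPC⟩ := exists_proj K C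
  set t := Coalgebra.comul (R := k) x with ht
  set P' : H →ₗ[k] H := LinearMap.id - P with hP'
  have hPD' : ∀ y ∈ D', P y ∈ C ⊓ K := fun y hy => hPC y (hD'C hy)
  have hP'D' : ∀ y ∈ D', P' y ∈ D' := by
    intro y hy
    rw [hP', LinearMap.sub_apply, LinearMap.id_apply]
    exact D'.sub_mem hy (hDD' (h0 (hPD' y hy)))
  have hP'D : ∀ y ∈ D, P' y ∈ D := by
    intro y hy
    rw [hP', LinearMap.sub_apply, LinearMap.id_apply]
    exact D.sub_mem hy (h0 (hPD' y (hDD' hy)))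
  have e1 : t = TensorProduct.map LinearMap.id P t + TensorProduct.map P P' t + TensorProduct.map P' P' t := by
    have h1 : ∀ s : H ⊗[k] H, s = TensorProduct.map LinearMap.id P s + TensorProduct.map P P' s +
        TensorProduct.map P' P' s := by
      intro s
      induction s with
      | zero => simp
      | tmul a b =>
        simp only [TensorProduct.map_tmul, hP', LinearMap.sub_apply, LinearMap.id_apply,
          TensorProduct.sub_tmul, TensorProduct.tmul_sub]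
        abel
      | add s t hs ht =>
        simp only [map_add]
        conv_lhs => rw [hs, ht]
        abel
    exact h1 t
  have eL : ∀ (g : Module.Dual k H) (s : H ⊗[k] H),
      TensorProduct.rid k H (LinearMap.lTensor H g (TensorProduct.map P' P' s)) =
      P' (TensorProduct.rid k H (LinearMap.lTensor H (g ∘ₗ P') s)) := by
    intro g s
    induction s with
    | zero => simp
    | tmul a b => simp
    | add s t hs ht => simp only [map_add, hs, ht]
  have eR : ∀ (g : Module.Dual k H) (s : H ⊗[k] H),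
      TensorProduct.lid k H (LinearMap.rTensor H g (TensorProduct.map P' P' s)) =
      P' (TensorProduct.lid k H (LinearMap.rTensor H (g ∘ₗ P') s)) := by
    intro g s
    induction s with
    | zero => simp
    | tmul a b => simp
    | add s t hs ht => simp only [map_add, hs, ht]
  have hg : ∀ g : Module.Dual k H, ∀ κ ∈ K, (g ∘ₗ P') κ = 0 := by
    intro g κ hκ
    rw [LinearMap.comp_apply, hP', LinearMap.sub_apply, LinearMap.id_apply, hPK κ hκ, sub_self, map_zero]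
  rw [e1]
  refine Submodule.add_mem _ (Submodule.add_mem _ ?_ ?_) ?_
  · exact Submodule.mem_sup_left (Submodule.mem_sup_left (map_tsp k (fun y hy => hy) hPD' hx))
  · exact Submodule.mem_sup_left (Submodule.mem_sup_right (map_tsp k hPD' hP'D' hx))
  · refine Submodule.mem_sup_right (FLAG_TD k D _ (fun g => ?_) (fun g => ?_))
    · rw [eL]
      exact hP'D _ (hf _ (hg g)).1
    · rw [eR]
      exact hP'D _ (hf _ (hg g)).2

/-- the chain of subcoalgebras -/
theorem exists_chain (K : Submodule k H) (hKs : IsSubcoalgebra k K) (hK1 : (1 : H) ∈ K)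
    (hK : coradical k H ≤ K) (V : Submodule k H) (hV : V.FG) :
    ∃ (r : ℕ) (D : ℕ → Submodule k H), V ≤ D r ∧ (∀ i, (D i).FG) ∧ Monotone D ∧ (1 : H) ∈ D 0 ∧ D 0 ≤ K ∧
      (∀ x ∈ D 0, Coalgebra.comul (R := k) x ∈ tsp k (D 0) (D 0)) ∧
      ∀ i, ∀ x ∈ D (i + 1), Coalgebra.comul (R := k) x ∈
        tsp k (D (i + 1)) (D 0) ⊔ tsp k (D 0) (D (i + 1)) ⊔ tsp k (D i) (D i) := by
  have hcp := cp_inst k (H := H)
  obtain ⟨C, hVC, hC, hCL, hCR⟩ := hcp.fund (V ⊔ Submodule.span k {1}) (hV.sup (Submodule.fg_span_singleton 1))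
  obtain ⟨hKL, hKR⟩ := (FLAG_sub_iff k K).1 hKs
  obtain ⟨r, D, hD0, hDr, hmono, hDC, hDL, hDR, hst⟩ := hcp.chain K C (simpleLe_of_coradical k K hK) hKL hKR hC hCL hCR
  have hsub : ∀ i, IsSubcoalgebra k (D i) := fun i => (FLAG_sub_iff k (D i)).2 ⟨hDL i, hDR i⟩
  refine ⟨r, D, ?_, fun i => ?_, hmono, ?_, ?_, hsub 0, fun i x hx => ?_⟩
  · rw [hDr]
    exact le_sup_left.trans hVC
  · have := Module.Finite.iff_fg.2 hC
    have := Submodule.finiteDimensional_of_le (hDC i)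
    exact Module.Finite.iff_fg.1 this
  · rw [hD0]
    exact ⟨hVC (Submodule.mem_sup_right (Submodule.mem_span_singleton_self 1)), hK1⟩
  · rw [hD0]
    exact inf_le_right
  · have := step_tsp k K C (D i) (D (i + 1)) (hD0 ▸ hmono (Nat.zero_le i)) (hmono (Nat.le_succ i)) (hDC (i + 1))
      (hsub (i + 1) x hx) (hst i x hx)
    rwa [← hD0] at this

end bialg

end Pool.Agent.GKF
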