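import Pool.Agent.Lib_helper77.GK.FLAG

/-!
# Actions of the dual on a coalgebra relative to a subcoalgebra containing the simple ones
-/

set_option autoImplicit false

universe u v

namespace Pool.Agent.GKF

open TensorProduct Pool.Agent.GK

section abs
variable (k : Type u) [Field k] {H : Type v} [AddCommGroup H] [Module k H]

/-- the two commuting actions of the dual on a coalgebra -/
structure CP (ε : Module.Dual k H) (L R : Module.Dual k H →ₗ[k] H →ₗ[k] H) : Prop where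
  LR : ∀ f g x, L f (R g x) = R g (L f x)
  LL : ∀ f g, ∃ h, ∀ x, L f (L g x) = L h x
  RR : ∀ f g, ∃ h, ∀ x, R f (R g x) = R h x
  Lε : ∀ x, L ε x = x
  Rε : ∀ x, R ε x = x
  εL : ∀ f x, ε (L f x) = f x
  εR : ∀ f x, ε (R f x) = f x
  finL : ∀ x, ∃ W : Submodule k H, W.FG ∧ ∀ f, L f x ∈ W
  finR : ∀ x, ∃ W : Submodule k H, W.FG ∧ ∀ f, R f x ∈ W

variable {k}

theorem CP.symm {ε : Module.Dual k H} {L R : Module.Dual k H →ₗ[k] H →ₗ[k] H}
    (h : CP k ε L R) : CP k ε R L where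
  LR := fun f g x => (h.LR g f x).symm
  LL := h.RR
  RR := h.LL
  Lε := h.Rε
  Rε := h.Lε
  εL := h.εR
  εR := h.εL
  finL := h.finR
  finR := h.finL

theorem exd {Y : Submodule k H} {x : H} (hx : x ∉ Y) : ∃ φ : Module.Dual k H, φ x ≠ 0 ∧ ∀ y ∈ Y, φ y = 0 := by
  obtain ⟨φ, h1, h2⟩ := Submodule.exists_dual_map_eq_bot_of_notMem hx inferInstance
  refine ⟨φ, h1, fun y hy => ?_⟩
  have : φ y ∈ Y.map φ := Submodule.mem_map_of_mem hy
  rw [h2] at this
  simpa using this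

theorem eq_of_dual {x y : H} (h : ∀ f : Module.Dual k H, f x = f y) : x = y := by
  rw [← sub_eq_zero, ← Module.forall_dual_apply_eq_zero_iff k]
  intro f
  rw [map_sub, h, sub_self]

theorem CP.fg_closure {ε : Module.Dual k H} {L R : Module.Dual k H →ₗ[k] H →ₗ[k] H}
    (h : CP k ε L R) (U : Submodule k H) (hU : U.FG) : (⨆ g, U.map (R g)).FG := by
  obtain ⟨s, rfl⟩ := hU
  choose W hW1 hW2 using h.finR
  have : Module.Finite k ↥(⨆ x ∈ s, W x) := by
    rw [Module.Finite.iff_fg]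
    exact Submodule.fg_biSup s W (fun x _ => hW1 x)
  have hle : (⨆ g, (Submodule.span k (s : Set H)).map (R g)) ≤ ⨆ x ∈ s, W x := by
    refine iSup_le fun g => ?_
    rw [Submodule.map_span_le]
    intro x hx
    exact Submodule.mem_iSup_of_mem x (Submodule.mem_iSup_of_mem (by simpa using hx) (hW2 x g))
  rw [← Module.Finite.iff_fg]
  exact Submodule.finiteDimensional_of_le hle

/-- Key: functionals vanishing on a subspace which contains the simple subcoalgebras act nilpotently. -/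
theorem CP.key {ε : Module.Dual k H} {L R : Module.Dual k H →ₗ[k] H →ₗ[k] H} (h : CP k ε L R)
    (K : Submodule k H)
    (hK : ∀ F : Submodule k H, F.FG → F ≠ ⊥ → (∀ f, ∀ x ∈ F, L f x ∈ F) → (∀ f, ∀ x ∈ F, R f x ∈ F) →
      (∀ F' ≤ F, (∀ f, ∀ x ∈ F', L f x ∈ F') → (∀ f, ∀ x ∈ F', R f x ∈ F') → F' = ⊥ ∨ F' = F) → F ≤ K)
    (Y X : Submodule k H) (hX : X.FG) (hYX : Y ≤ X) (hne : Y ≠ X)
    (hYL : ∀ f, ∀ x ∈ Y, L f x ∈ Y) (hXL : ∀ f, ∀ x ∈ X, L f x ∈ X) :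
    ∃ x ∈ X, x ∉ Y ∧ ∀ f : Module.Dual k H, (∀ κ ∈ K, f κ = 0) → L f x ∈ Y := by
  classical
  have hXfin : Module.Finite k X := Module.Finite.iff_fg.2 hX
  -- a minimal one above `Y`
  let S : Set (Submodule k H) := {Z | Y ≤ Z ∧ Z ≤ X ∧ Z ≠ Y ∧ ∀ f, ∀ x ∈ Z, L f x ∈ Z}
  have hS : S.Nonempty := ⟨X, hYX, le_rfl, hne.symm, hXL⟩
  obtain ⟨Z, ⟨hYZ, hZX, hZY, hZL⟩, hmin⟩ := WellFounded.has_min
    (measure (fun U : Submodule k H => Module.finrank k U)).wf S hS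
  have hZfin : Module.Finite k Z := Submodule.finiteDimensional_of_le hZX
  have hmin' : ∀ M : Submodule k H, Y ≤ M → M ≤ Z → (∀ f, ∀ x ∈ M, L f x ∈ M) → M ≠ Y → M = Z := by
    intro M h1 h2 h3 h4
    by_contra h5
    refine hmin M ⟨h1, h2.trans hZX, h4, h3⟩ ?_
    exact Submodule.finrank_lt_finrank_of_lt (lt_of_le_of_ne h2 h5)
  -- `φ (L f x) = f (R φ x)`
  have hpair : ∀ f g : Module.Dual k H, ∀ x, f (R g x) = g (L f x) := by
    intro f g x
    rw [← h.εL f (R g x), h.LR, h.εR]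
  have hRY : ∀ φ : Module.Dual k H, (∀ y ∈ Y, φ y = 0) → ∀ y ∈ Y, R φ y = 0 := by
    intro φ hφ y hy
    refine eq_of_dual (k := k) fun f => ?_
    rw [hpair, hφ _ (hYL f y hy), map_zero]
  -- the coefficient space
  set F : Submodule k H := ⨆ φ : {φ : Module.Dual k H // ∀ y ∈ Y, φ y = 0}, Z.map (R φ.1) with hF
  have hFfg : F.FG := by
    have h1 : (⨆ g, Z.map (R g)).FG := h.fg_closure Z (Module.Finite.iff_fg.1 hZfin)
    have h2 : Module.Finite k ↥(⨆ g, Z.map (R g)) := Module.Finite.iff_fg.2 h1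
    have h3 : F ≤ ⨆ g, Z.map (R g) := iSup_le fun φ => le_iSup (fun g => Z.map (R g)) φ.1
    have := Submodule.finiteDimensional_of_le h3
    exact Module.Finite.iff_fg.1 this
  have hFL : ∀ f, ∀ x ∈ F, L f x ∈ F := by
    intro f x hx
    have h1 : F ≤ F.comap (L f) := by
      conv_lhs => rw [hF]
      refine iSup_le fun φ => ?_
      rintro _ ⟨z, hz, rfl⟩
      rw [Submodule.mem_comap, h.LR]
      exact Submodule.mem_iSup_of_mem φ (Submodule.mem_map_of_mem (hZL f z hz))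
    exact h1 hx
  have hFR : ∀ f, ∀ x ∈ F, R f x ∈ F := by
    intro f x hx
    have h1 : F ≤ F.comap (R f) := by
      conv_lhs => rw [hF]
      refine iSup_le fun φ => ?_
      rintro _ ⟨z, hz, rfl⟩
      rw [Submodule.mem_comap]
      obtain ⟨g, hg⟩ := h.RR f φ.1
      have hgY : ∀ y ∈ Y, g y = 0 := by
        intro y hy
        rw [← h.εR g y, ← hg, hRY φ.1 φ.2 y hy, map_zero, map_zero]
      rw [hg]
      exact Submodule.mem_iSup_of_mem (⟨g, hgY⟩ : {φ : Module.Dual k H // ∀ y ∈ Y, φ y = 0})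
        (Submodule.mem_map_of_mem hz)
    exact h1 hx
  have hF0 : F ≠ ⊥ := by
    obtain ⟨z, hz, hzY⟩ : ∃ z ∈ Z, z ∉ Y := by
      by_contra hcon
      push Not at hcon
      exact hZY (le_antisymm hcon hYZ)
    obtain ⟨φ, hφ1, hφ2⟩ := exd hzY
    intro hbot
    have h1 : R φ z ∈ F := Submodule.mem_iSup_of_mem
      (⟨φ, hφ2⟩ : {φ : Module.Dual k H // ∀ y ∈ Y, φ y = 0}) (Submodule.mem_map_of_mem hz)
    rw [hbot, Submodule.mem_bot] at h1
    apply hφ1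
    rw [← h.εR φ z, h1, map_zero]
  -- a simple subcoalgebra of it
  have hFfin : Module.Finite k F := Module.Finite.iff_fg.2 hFfg
  let S' : Set (Submodule k H) := {U | U ≤ F ∧ U ≠ ⊥ ∧ (∀ f, ∀ x ∈ U, L f x ∈ U) ∧ ∀ f, ∀ x ∈ U, R f x ∈ U}
  have hS' : S'.Nonempty := ⟨F, le_rfl, hF0, hFL, hFR⟩
  obtain ⟨G, ⟨hGF, hG0, hGL, hGR⟩, hGmin⟩ := WellFounded.has_min
    (measure (fun U : Submodule k H => Module.finrank k U)).wf S' hS'
  have hGfin : Module.Finite k G := Submodule.finiteDimensional_of_le hGF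
  have hGK : G ≤ K := by
    refine hK G (Module.Finite.iff_fg.1 hGfin) hG0 hGL hGR fun F' hF' h1 h2 => ?_
    by_contra hcon
    push Not at hcon
    refine hGmin F' ⟨hF'.trans hGF, hcon.1, h1, h2⟩ ?_
    exact Submodule.finrank_lt_finrank_of_lt (lt_of_le_of_ne hF' hcon.2)
  -- finitely many functionals
  have hWL : ∀ s : Finset {φ : Module.Dual k H // ∀ y ∈ Y, φ y = 0}, ∀ f, ∀ x ∈ ⨆ φ ∈ s, Z.map (R φ.1),
      L f x ∈ ⨆ φ ∈ s, Z.map (R φ.1) := by
    intro s f x hx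
    have h1 : (⨆ φ ∈ s, Z.map (R φ.1)) ≤ (⨆ φ ∈ s, Z.map (R φ.1)).comap (L f) := by
      refine iSup₂_le fun φ hφ => ?_
      rintro _ ⟨z, hz, rfl⟩
      rw [Submodule.mem_comap, h.LR]
      exact Submodule.mem_iSup_of_mem φ (Submodule.mem_iSup_of_mem hφ (Submodule.mem_map_of_mem (hZL f z hz)))
    exact h1 hx
  obtain ⟨s, hs, hsmin⟩ : ∃ s : Finset {φ : Module.Dual k H // ∀ y ∈ Y, φ y = 0},
      G ⊓ (⨆ φ ∈ s, Z.map (R φ.1)) ≠ ⊥ ∧
      ∀ t : Finset {φ : Module.Dual k H // ∀ y ∈ Y, φ y = 0}, t.card < s.card →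
        G ⊓ (⨆ φ ∈ t, Z.map (R φ.1)) = ⊥ := by
    have hex : ∃ s : Finset {φ : Module.Dual k H // ∀ y ∈ Y, φ y = 0}, G ⊓ (⨆ φ ∈ s, Z.map (R φ.1)) ≠ ⊥ := by
      obtain ⟨u, hu, hu0⟩ := (Submodule.ne_bot_iff G).1 hG0
      have h1 : u ∈ ⨆ φ : {φ : Module.Dual k H // ∀ y ∈ Y, φ y = 0}, Z.map (R φ.1) := hGF hu
      rw [Submodule.mem_iSup_iff_exists_finset] at h1
      obtain ⟨s, hs⟩ := h1
      exact ⟨s, (Submodule.ne_bot_iff _).2 ⟨u, ⟨hu, hs⟩, hu0⟩⟩
    let Q : Set (Finset {φ : Module.Dual k H // ∀ y ∈ Y, φ y = 0}) :=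
      {s | G ⊓ (⨆ φ ∈ s, Z.map (R φ.1)) ≠ ⊥}
    obtain ⟨s, hs, hm⟩ := WellFounded.has_min
      (measure (fun s : Finset {φ : Module.Dual k H // ∀ y ∈ Y, φ y = 0} => s.card)).wf Q hex
    refine ⟨s, hs, fun t ht => ?_⟩
    by_contra hcon
    exact hm t hcon ht
  obtain ⟨i, hi⟩ : s.Nonempty := by
    rw [Finset.nonempty_iff_ne_empty]
    rintro rfl
    apply hs
    simp
  set W : Submodule k H := ⨆ φ ∈ s.erase i, Z.map (R φ.1) with hW
  have hGW : G ⊓ W = ⊥ := hsmin _ (Finset.card_erase_lt_of_mem hi)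
  have hsW : (⨆ φ ∈ s, Z.map (R φ.1)) = Z.map (R i.1) ⊔ W := by
    have h1 : (⨆ φ ∈ insert i (s.erase i), Z.map (R φ.1)) = Z.map (R i.1) ⊔ W := by
      rw [Finset.iSup_insert]
    rwa [Finset.insert_erase hi] at h1
  rw [hsW] at hs
  have hWL' : ∀ f, ∀ x ∈ W, L f x ∈ W := hWL (s.erase i)
  have hGWL : ∀ f, ∀ x ∈ G ⊔ W, L f x ∈ G ⊔ W := by
    intro f x hx
    obtain ⟨g, hg, w, hw, rfl⟩ := Submodule.mem_sup.1 hx
    rw [map_add]
    exact Submodule.add_mem_sup (hGL f g hg) (hWL' f w hw)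
  -- `R i z ∈ G ⊔ W` for all `z ∈ Z`
  have hZG : Z ⊓ (G ⊔ W).comap (R i.1) = Z := by
    refine hmin' _ (fun y hy => ⟨hYZ hy, ?_⟩) inf_le_left (fun f x hx => ⟨hZL f x hx.1, ?_⟩) ?_
    · rw [SetLike.mem_coe, Submodule.mem_comap, hRY i.1 i.2 y hy]
      exact Submodule.zero_mem _
    · rw [SetLike.mem_coe, Submodule.mem_comap, ← h.LR]
      exact hGWL f _ hx.2
    · intro heq
      obtain ⟨u, ⟨huG, hus⟩, hu0⟩ := (Submodule.ne_bot_iff _).1 hs
      obtain ⟨y, ⟨z, hz, rfl⟩, w, hw, hu⟩ := Submodule.mem_sup.1 hus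
      have h1 : z ∈ Z ⊓ (G ⊔ W).comap (R i.1) := by
        refine ⟨hz, ?_⟩
        rw [SetLike.mem_coe, Submodule.mem_comap]
        have h2 : R i.1 z = u - w := by rw [← hu]; abel
        rw [h2]
        exact Submodule.sub_mem _ (Submodule.mem_sup_left huG) (Submodule.mem_sup_right hw)
      rw [heq] at h1
      rw [hRY i.1 i.2 z h1, zero_add] at hu
      apply hu0
      have h3 : u ∈ G ⊓ W := ⟨huG, hu ▸ hw⟩
      rwa [hGW, Submodule.mem_bot] at h3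
  have hZG' : ∀ z ∈ Z, ∃ g ∈ G, ∃ w ∈ W, g + w = R i.1 z := by
    intro z hz
    rw [← hZG] at hz
    obtain ⟨g, hg, w, hw, h1⟩ := Submodule.mem_sup.1 (Submodule.mem_comap.1 hz.2)
    exact ⟨g, hg, w, hw, h1⟩
  obtain ⟨p, hpG, hpW⟩ : ∃ p : H →ₗ[k] H, (∀ g ∈ G, p g = g) ∧ ∀ w ∈ W, p w = 0 := by
    obtain ⟨Q, hQ⟩ := Submodule.exists_isCompl (G ⊔ W)
    have hdisj : Disjoint G (W ⊔ Q) := by
      rw [Submodule.disjoint_def]
      intro x hx hx'
      obtain ⟨w, hw, q, hq, rfl⟩ := Submodule.mem_sup.1 hx'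
      have h1 : q ∈ (G ⊔ W) ⊓ Q := by
        refine ⟨?_, hq⟩
        have h2 : q = (w + q) - w := by abel
        rw [SetLike.mem_coe, h2]
        exact Submodule.sub_mem _ (Submodule.mem_sup_left hx) (Submodule.mem_sup_right hw)
      rw [hQ.inf_eq_bot, Submodule.mem_bot] at h1
      rw [h1, add_zero] at hx ⊢
      have h3 : w ∈ G ⊓ W := ⟨hx, hw⟩
      rwa [hGW, Submodule.mem_bot] at h3
    have hcomp : IsCompl G (W ⊔ Q) := by
      refine ⟨hdisj, ?_⟩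
      rw [codisjoint_iff, ← sup_assoc]
      exact hQ.sup_eq_top
    refine ⟨G.subtype ∘ₗ Submodule.projectionOnto G (W ⊔ Q) hcomp, fun g hg => ?_, fun w hw => ?_⟩
    · have := Submodule.projectionOnto_apply_left hcomp ⟨g, hg⟩
      rw [LinearMap.comp_apply, this]
      rfl
    · have := (Submodule.projectionOnto_apply_eq_zero_iff hcomp (x := w)).2
        (Submodule.mem_sup_left hw)
      rw [LinearMap.comp_apply, this, map_zero]
  set uu : H →ₗ[k] H := p ∘ₗ R i.1 with huu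
  have huG : ∀ z ∈ Z, uu z ∈ G := by
    intro z hz
    obtain ⟨g, hg, w, hw, h1⟩ := hZG' z hz
    rw [huu, LinearMap.comp_apply, ← h1, map_add, hpG g hg, hpW w hw, add_zero]
    exact hg
  have huL : ∀ f, ∀ z ∈ Z, uu (L f z) = L f (uu z) := by
    intro f z hz
    obtain ⟨g, hg, w, hw, h1⟩ := hZG' z hz
    rw [huu, LinearMap.comp_apply, LinearMap.comp_apply, ← h.LR, ← h1, map_add, map_add, map_add,
      map_add, hpG g hg, hpW w hw, hpG _ (hGL f g hg), hpW _ (hWL' f w hw), map_zero]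
  have huY : ∀ y ∈ Y, uu y = 0 := by
    intro y hy
    rw [huu, LinearMap.comp_apply, hRY i.1 i.2 y hy, map_zero]
  have huker : ∀ z ∈ Z, uu z = 0 → z ∈ Y := by
    by_contra hcon
    push Not at hcon
    obtain ⟨z, hz, hz0, hzY⟩ := hcon
    have h1 : Z ⊓ LinearMap.ker uu = Z := by
      refine hmin' _ (fun y hy => ⟨hYZ hy, huY y hy⟩) inf_le_left
        (fun f x hx => ⟨hZL f x hx.1, ?_⟩) ?_
      · rw [SetLike.mem_coe, LinearMap.mem_ker, huL f x hx.1, LinearMap.mem_ker.1 hx.2, map_zero]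
      · intro heq
        apply hzY
        rw [← heq]
        exact ⟨hz, hz0⟩
    apply hs
    have h2 : Z.map (R i.1) ≤ W := by
      rintro _ ⟨z', hz', rfl⟩
      obtain ⟨g, hg, w, hw, h3⟩ := hZG' z' hz'
      have h4 : z' ∈ Z ⊓ LinearMap.ker uu := by rw [h1]; exact hz'
      have h5 : uu z' = 0 := h4.2
      rw [huu, LinearMap.comp_apply, ← h3, map_add, hpG g hg, hpW w hw, add_zero] at h5
      rw [← h3, h5, zero_add]
      exact hw
    rw [sup_eq_right.2 h2, hGW]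
  -- `R φ z ∈ G`
  have hRG : ∀ φ : Module.Dual k H, (∀ y ∈ Y, φ y = 0) → ∀ z ∈ Z, R φ z ∈ G := by
    intro φ hφ z hz
    have h1 : φ.comp Z.subtype ∈ (LinearMap.ker (uu ∘ₗ Z.subtype)).dualAnnihilator := by
      rw [Submodule.mem_dualAnnihilator]
      intro w hw
      exact hφ _ (huker w w.2 hw)
    rw [← LinearMap.range_dualMap_eq_dualAnnihilator_ker] at h1
    obtain ⟨ζ, hζ⟩ := h1
    have h2 : ∀ w ∈ Z, φ w = ζ (uu w) := by
      intro w hw
      have := LinearMap.congr_fun hζ ⟨w, hw⟩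
      exact this.symm
    have h3 : R φ z = R ζ (uu z) := by
      refine eq_of_dual (k := k) fun f => ?_
      rw [hpair, hpair, h2 _ (hZL f z hz), huL f z hz]
    rw [h3]
    exact hGR ζ _ (huG z hz)
  obtain ⟨x, hxZ, hxY⟩ : ∃ z ∈ Z, z ∉ Y := by
    by_contra hcon
    push Not at hcon
    exact hZY (le_antisymm hcon hYZ)
  refine ⟨x, hZX hxZ, hxY, fun f hf => ?_⟩
  by_contra hcon
  obtain ⟨φ, hφ1, hφ2⟩ := exd hcon
  apply hφ1
  rw [← hpair]
  exact hf _ (hGK (hRG φ hφ2 x hxZ))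

end abs

end Pool.Agent.GKF
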