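import Pool.Agent.Lib_helper2.GKF.GRO
import Pool.Agent.Lib_helper11.GK.Main

/-!
# Bialgebras over a locally nilpotent subalgebra which contains the coradical
-/

set_option autoImplicit false

universe u v

namespace Pool.Agent.GKF

open TensorProduct Pool.Agent.GK Filter Topology

section prim
variable (k : Type u) [Field k] {B : Type v} [Ring B] [Bialgebra k B] {m : ℕ} (c : Fin m → B)

theorem isFilt_prim (hc : ∀ j, Coalgebra.comul (R := k) (c j) = c j ⊗ₜ[k] 1 + 1 ⊗ₜ[k] c j) :
    IsFilt k (fun n => Dg k c ^ n) c (fun _ => 1) where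
  zero := by rw [pow_zero, Submodule.one_eq_span]
  mono := fun a b h => Dg_mono k c h
  fg := fun n => (Dg_fg k c).pow n
  mul := fun a b x hx y hy => by
    show x * y ∈ Dg k c ^ (a + b)
    rw [pow_add]
    exact Submodule.mul_mem_mul hx hy
  comul := by
    have hmul : ∀ a b : ℕ, ∀ x ∈ Dg k c ^ a, ∀ y ∈ Dg k c ^ b, x * y ∈ Dg k c ^ (a + b) := by
      intro a b x hx y hy
      rw [pow_add]
      exact Submodule.mul_mem_mul hx hy
    have h1 : ∀ y ∈ Dg k c, Coalgebra.comul (R := k) y ∈ TT k (fun n => Dg k c ^ n) 1 := by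
      intro y hy
      have h2 : Dg k c ≤ (TT k (fun n => Dg k c ^ n) 1).comap (Coalgebra.comul (R := k)) := by
        conv_lhs => unfold Dg
        rw [Submodule.span_le, Set.insert_subset_iff]
        constructor
        · rw [SetLike.mem_coe, Submodule.mem_comap, Bialgebra.comul_one, Algebra.TensorProduct.one_def]
          exact filt_TT_mem k (a := 0) (b := 0) (Submodule.one_le.1 (pow_zero _).ge)
            (Submodule.one_le.1 (pow_zero _).ge) (by omega)
        · rintro _ ⟨j, rfl⟩
          rw [SetLike.mem_coe, Submodule.mem_comap, hc]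
          refine Submodule.add_mem _ ?_ ?_
          · exact filt_TT_mem k (a := 1) (b := 0) (by show c j ∈ Dg k c ^ 1; rw [pow_one]; exact Dg_x k c j)
              (Submodule.one_le.1 (pow_zero _).ge) (by omega)
          · exact filt_TT_mem k (a := 0) (b := 1) (Submodule.one_le.1 (pow_zero _).ge)
              (by show c j ∈ Dg k c ^ 1; rw [pow_one]; exact Dg_x k c j) (by omega)
      exact h2 hy
    intro n
    induction n with
    | zero =>
      intro x hx
      rw [pow_zero, Submodule.one_eq_span, Submodule.mem_span_singleton] at hx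
      obtain ⟨a, rfl⟩ := hx
      rw [map_smul, Bialgebra.comul_one, Algebra.TensorProduct.one_def]
      refine Submodule.smul_mem _ _ ?_
      exact filt_TT_mem k (a := 0) (b := 0) (Submodule.one_le.1 (pow_zero _).ge)
            (Submodule.one_le.1 (pow_zero _).ge) (by omega)
    | succ n ih =>
      intro x hx
      rw [pow_succ] at hx
      have h2 : Dg k c ^ n * Dg k c ≤ (TT k (fun n => Dg k c ^ n) (n + 1)).comap (Coalgebra.comul (R := k)) := by
        rw [Submodule.mul_le]
        intro a ha b hb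
        rw [Submodule.mem_comap, Bialgebra.comul_mul]
        exact filt_TT_mul k hmul n 1 (Submodule.mul_mem_mul (ih a ha) (h1 b hb))
      exact h2 hx
  wpos := fun _ => le_rfl
  prim := by
    intro j
    refine ⟨by show c j ∈ Dg k c ^ 1; rw [pow_one]; exact Dg_x k c j, ?_⟩
    rw [hc]
    have : c j ⊗ₜ[k] (1 : B) + (1 : B) ⊗ₜ[k] c j - c j ⊗ₜ[k] (1 : B) - (1 : B) ⊗ₜ[k] c j = 0 := by abel
    rw [this]
    exact Submodule.zero_mem _
  gen := by
    intro n hn
    obtain ⟨n, rfl⟩ := Nat.exists_eq_add_of_le' hn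
    show Dg k c ^ (n + 1) ≤ _
    rw [pow_succ', Submodule.mul_le]
    intro a ha y hy
    unfold Dg at ha
    induction ha using Submodule.span_induction with
    | mem x hx =>
      rcases hx with rfl | ⟨j, rfl⟩
      · rw [one_mul]
        exact Submodule.mem_sup_left hy
      · exact Submodule.mem_sup_right (Submodule.subset_span ⟨j, by omega, y, hy, rfl⟩)
    | zero => rw [zero_mul]; exact Submodule.zero_mem _
    | add x x' _ _ hx hx' => rw [add_mul]; exact Submodule.add_mem _ hx hx'
    | smul a x _ hx => rw [smul_mul_assoc]; exact Submodule.smul_mem _ _ hx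

/-- growth of a bialgebra generated by primitive elements -/
theorem growth_prim (hc : ∀ j, Coalgebra.comul (R := k) (c j) = c j ⊗ₜ[k] 1 + 1 ⊗ₜ[k] c j) :
    (∃ W : ℕ, 1 ≤ W ∧ ∀ M : ℕ, 1 ≤ M → 2 ^ M ≤ Module.finrank k ↥(Dg k c ^ (W * M ^ 2))) ∨
    ∃ (r : ℕ) (a b : ℝ), 0 < a ∧ ∀ n : ℕ, 1 ≤ n → a * (n : ℝ) ^ r ≤ (Module.finrank k ↥(Dg k c ^ n) : ℝ) ∧
      (Module.finrank k ↥(Dg k c ^ n) : ℝ) ≤ b * (n : ℝ) ^ r := by
  have hF := isFilt_prim k c hc
  rcases dich_pr k hF with ⟨W, hind⟩ | ⟨d, x, w', hlie⟩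
  · left
    refine ⟨W + 1, Nat.succ_pos _, fun M hM => ?_⟩
    obtain ⟨x, n, hx, hn⟩ := hind M
    refine (ind_pr k hF hx).trans ?_
    have : Module.Finite k ↥(Dg k c ^ ((W + 1) * M ^ 2)) := Module.Finite.iff_fg.2 ((Dg_fg k c).pow _)
    refine Submodule.finrank_mono (hF.mono ?_)
    calc ∑ i, n i ≤ ∑ _i : Fin M, W * M :=
          Finset.sum_le_sum (fun i _ => (hn i).trans (Nat.mul_le_mul_left W i.isLt))
      _ = M * (W * M) := by simp
      _ = W * M ^ 2 := by ring
      _ ≤ (W + 1) * M ^ 2 := Nat.mul_le_mul_right _ (Nat.le_succ W)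
  · right
    obtain ⟨E, hE, h0, hcard⟩ := pbw_pr k hF.zero hF.mono hF.mul hlie
    obtain ⟨r, c', C, hc', hb⟩ := dick_pr w' hlie.wpos E hE h0
    refine ⟨r, c', C, hc', fun n hn => ?_⟩
    have := hb n hn
    rw [← hcard n] at this
    exact this

end prim

section transfer
variable (k : Type u) [Field k] {H : Type v} [Ring H] [Bialgebra k H]

/-- transfer of the growth -/
theorem asm_L_transfer (D : Submodule k H) (h1 : 1 ≤ D) (hD : D.FG) (g : ℕ → ℕ) (A : ℕ) (hA : 1 ≤ A)
    (hle : ∀ n, 1 ≤ n → Module.finrank k ↥(D ^ n) ≤ g (A * n))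
    (hge : ∀ n, 1 ≤ n → g n ≤ Module.finrank k ↥(D ^ (A * n)))
    (hg : (∃ W : ℕ, 1 ≤ W ∧ ∀ M : ℕ, 1 ≤ M → 2 ^ M ≤ g (W * M ^ 2)) ∨
      ∃ (r : ℕ) (a b : ℝ), 0 < a ∧ ∀ n : ℕ, 1 ≤ n → a * (n : ℝ) ^ r ≤ (g n : ℝ) ∧
        (g n : ℝ) ≤ b * (n : ℝ) ^ r) :
    asm_L k D = ⊤ ∨ ∃ m : ℕ, asm_L k D = (m : ENNReal) := by
  rcases hg with ⟨W, hW, hg⟩ | ⟨r, a, b, ha, hg⟩
  · left
    refine asm_L_top k (W := A * W) (Nat.mul_pos hA hW) fun M hM => ?_
    refine (hg M hM).trans ?_
    rw [mul_assoc]
    exact hge _ (Nat.mul_pos hW (pow_pos hM 2))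
  · right
    have hA0 : (0 : ℝ) < A := by exact_mod_cast hA
    have hmono : ∀ {p q : ℕ}, p ≤ q → Module.finrank k ↥(D ^ p) ≤ Module.finrank k ↥(D ^ q) := by
      intro p q hpq
      have : Module.Finite k ↥(D ^ q) := Module.Finite.iff_fg.2 (hD.pow q)
      exact Submodule.finrank_mono (pow_le_pow_right' h1 hpq)
    have hpos : ∀ n, 1 ≤ Module.finrank k ↥(D ^ n) := by
      intro n
      have hnt : Nontrivial H := Bialgebra.nontrivial (R := k)
      have : Module.Finite k ↥(D ^ n) := Module.Finite.iff_fg.2 (hD.pow n)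
      have h2 : (1 : H) ∈ D ^ n := by
        have : (1 : Submodule k H) ≤ D ^ n := by
          calc (1 : Submodule k H) = 1 ^ n := (one_pow n).symm
            _ ≤ D ^ n := pow_le_pow_left' h1 n
        exact Submodule.one_le.1 this
      have : Nontrivial ↥(D ^ n) := ⟨⟨1, h2⟩, 0, fun h => one_ne_zero (congrArg Subtype.val h)⟩
      exact Module.finrank_pos
    refine ⟨r, asm_L_eq k (c := min a 1 / (2 * A) ^ r) (C := b * (A : ℝ) ^ r) (by positivity) (fun n hn => ?_)
      (fun n hn => ?_)⟩
    · have h2A : (0 : ℝ) < (2 * A) ^ r := by positivity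
      rcases Nat.eq_zero_or_pos (n / A) with h0 | h0
      · have h2 : n < A := (Nat.div_eq_zero_iff.1 h0).resolve_left (by omega)
        have h3 : (n : ℝ) ≤ 2 * A := by
          have : (n : ℝ) ≤ A := by exact_mod_cast h2.le
          linarith
        have h4 : (n : ℝ) ^ r ≤ (2 * A) ^ r := pow_le_pow_left₀ (Nat.cast_nonneg n) h3 r
        calc min a 1 / (2 * A) ^ r * (n : ℝ) ^ r ≤ 1 / (2 * A) ^ r * (2 * A) ^ r := by
              refine mul_le_mul (div_le_div_of_nonneg_right (min_le_right _ _) h2A.le) h4 (by positivity)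
                (by positivity)
          _ = 1 := by field_simp
          _ ≤ _ := by exact_mod_cast hpos n
      · have h2 : A * (n / A) ≤ n := Nat.mul_div_le n A
        have h3 : n ≤ 2 * A * (n / A) := by
          have := Nat.lt_mul_div_succ n hA
          nlinarith [Nat.mul_le_mul_left A h0]
        have h3' : (n : ℝ) ≤ 2 * A * ((n / A : ℕ) : ℝ) := by exact_mod_cast h3
        calc min a 1 / (2 * A) ^ r * (n : ℝ) ^ r ≤ a / (2 * A) ^ r * (2 * A * ((n / A : ℕ) : ℝ)) ^ r := by
              refine mul_le_mul (div_le_div_of_nonneg_right (min_le_left _ _) h2A.le)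
                (pow_le_pow_left₀ (Nat.cast_nonneg n) h3' r) (by positivity) (by positivity)
          _ = a * ((n / A : ℕ) : ℝ) ^ r := by
              rw [mul_pow (2 * (A : ℝ))]
              field_simp
          _ ≤ (g (n / A) : ℝ) := (hg _ h0).1
          _ ≤ (Module.finrank k ↥(D ^ (A * (n / A))) : ℝ) := by exact_mod_cast hge _ h0
          _ ≤ _ := by exact_mod_cast hmono h2
    · calc (Module.finrank k ↥(D ^ n) : ℝ) ≤ (g (A * n) : ℝ) := by exact_mod_cast hle n hn
        _ ≤ b * ((A * n : ℕ) : ℝ) ^ r := (hg _ (Nat.mul_pos hA hn)).2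
        _ = b * (A : ℝ) ^ r * (n : ℝ) ^ r := by
            push_cast
            rw [mul_pow]
            ring

end transfer

section words
variable (k : Type u) [Field k] {H : Type v} [Ring H] [Algebra k H] {m : ℕ} (x : Fin m → H) (lv : Fin m → ℕ)
  (w : Fin m → ℤ) (U : Submodule k H) (e : ℕ)

theorem run_mem (hU : ∀ j, lv j = 0 → x j ∈ U) (l : List (Fin m)) (hl : ∀ j ∈ l, lv j = 0) :
    FreeAlgebra.lift k x (word k l) ∈ U ^ l.length := by
  induction l with
  | nil =>
    rw [lift_nil, List.length_nil, pow_zero]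
    exact Submodule.one_le.1 le_rfl
  | cons j l ih =>
    rw [lift_cons, List.length_cons, pow_succ']
    exact Submodule.mul_mem_mul (hU j (hl j (by simp))) (ih fun i hi => hl i (by simp [hi]))

theorem run_le (hU : ∀ j, lv j = 0 → x j ∈ U) (hn : U ^ (e + 1) = ⊥) (l : List (Fin m))
    (h : FreeAlgebra.lift k x (word k l) ≠ 0) : (l.takeWhile (fun j => lv j = 0)).length ≤ e := by
  by_contra hcon
  apply h
  rw [← List.takeWhile_append_dropWhile (p := fun j => decide (lv j = 0)) (l := l), word_append, map_mul]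
  have h1 := run_mem k x lv U hU (l.takeWhile (fun j => decide (lv j = 0))) (by
    intro j hj
    have := List.mem_takeWhile_imp hj
    simpa using this)
  obtain ⟨n, hn'⟩ := Nat.exists_eq_add_of_le (not_le.1 hcon)
  rw [hn', Nat.succ_eq_add_one, pow_add, hn, Submodule.bot_mul, Submodule.mem_bot] at h1
  rw [h1, zero_mul]

theorem run_count (hU : ∀ j, lv j = 0 → x j ∈ U) (hn : U ^ (e + 1) = ⊥) (l : List (Fin m))
    (h : FreeAlgebra.lift k x (word k l) ≠ 0) :
    l.countP (fun j => lv j = 0) ≤ (l.takeWhile (fun j => lv j = 0)).length +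
      e * l.countP (fun j => lv j ≠ 0) := by
  induction l with
  | nil => simp
  | cons j l ih =>
    have h' : FreeAlgebra.lift k x (word k l) ≠ 0 := by
      intro h0
      apply h
      rw [lift_cons, h0, mul_zero]
    have h1 := ih h'
    have h2 := run_le k x lv U e hU hn l h'
    by_cases hj : lv j = 0
    · rw [List.countP_cons_of_pos (by simpa using hj), List.takeWhile_cons_of_pos (by simpa using hj),
        List.countP_cons_of_neg (by simpa using hj), List.length_cons]
      omega
    · rw [List.countP_cons_of_neg (by simpa using hj), List.takeWhile_cons_of_neg (by simpa using hj),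
        List.countP_cons_of_pos (by simpa using hj), List.length_nil, mul_add, mul_one]
      omega

theorem wt_ge (hw0 : ∀ j, lv j = 0 → w j = -1) (hw1 : ∀ j, lv j ≠ 0 → (e : ℤ) + 1 ≤ w j) (l : List (Fin m)) :
    -(l.countP (fun j => lv j = 0) : ℤ) + (e + 1) * (l.countP (fun j => lv j ≠ 0) : ℤ) ≤ wt w l := by
  induction l with
  | nil => simp [wt_nil]
  | cons j l ih =>
    rw [wt_cons]
    by_cases hj : lv j = 0
    · rw [List.countP_cons_of_pos (by simpa using hj), List.countP_cons_of_neg (by simpa using hj), hw0 j hj]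
      push_cast
      linarith
    · rw [List.countP_cons_of_neg (by simpa using hj), List.countP_cons_of_pos (by simpa using hj)]
      have := hw1 j hj
      push_cast
      linarith

theorem length_count (l : List (Fin m)) : l.length = l.countP (fun j => lv j = 0) + l.countP (fun j => lv j ≠ 0) := by
  rw [List.length_eq_countP_add_countP (fun j => decide (lv j = 0))]
  congr 1
  refine List.countP_congr fun j _ => ?_
  simp

theorem word_bound (hU : ∀ j, lv j = 0 → x j ∈ U) (hn : U ^ (e + 1) = ⊥)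
    (hw0 : ∀ j, lv j = 0 → w j = -1) (hw1 : ∀ j, lv j ≠ 0 → (e : ℤ) + 1 ≤ w j) (l : List (Fin m))
    (h : FreeAlgebra.lift k x (word k l) ≠ 0) :
    -(e : ℤ) ≤ wt w l ∧ (l.length : ℤ) ≤ (e + 1) * (wt w l + e + 1) := by
  have h1 := run_count k x lv U e hU hn l h
  have h2 := run_le k x lv U e hU hn l h
  have h3 := wt_ge lv w e hw0 hw1 l
  have h4 := length_count lv l
  set a := l.countP (fun j => lv j = 0)
  set b := l.countP (fun j => lv j ≠ 0)
  have h5 : (a : ℤ) ≤ e + e * b := by
    have : a ≤ e + e * b := by omega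
    exact_mod_cast this
  have h6 : (b : ℤ) - e ≤ wt w l := by nlinarith
  have hb : (0 : ℤ) ≤ b := Int.natCast_nonneg b
  have he : (0 : ℤ) ≤ e := Int.natCast_nonneg e
  refine ⟨by linarith, ?_⟩
  rw [h4]
  push_cast
  nlinarith [mul_le_mul_of_nonneg_left h6 (by linarith : (0 : ℤ) ≤ e + 1)]

end words

end Pool.Agent.GKF
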