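import Pool.Agent.Lib_helper11.GK.Defs

/-!
# A bialgebra generated by primitives from a filtered bialgebra

`H` is a bialgebra with a filtration `E`, indexed by `ℤ`, and subspaces `N s` of `E s` which contain
`E (s - 1)`; `x j ∈ E (w j)` are primitive modulo `N`. The quotient of the free algebra on letters `X j`
by the ideal of those `f` all of whose components `f s` (of weight `s`) have `f s (x) ∈ N s` is a bialgebra
in which the `X j` are primitive.
-/

set_option autoImplicit false

universe u v

namespace Pool.Agent.GKF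

open TensorProduct Pool.Agent.GK

section defs
variable (k : Type u) [Field k] {H : Type v} [Ring H] [Bialgebra k H]

/-- span of the `u ⊗ v`, `u ∈ E a`, `v ∈ F b`, `a + b = n` -/
def TZ (E F : ℤ → Submodule k H) (n : ℤ) : Submodule k (H ⊗[k] H) :=
  ⨆ a : ℤ, tsp k (E a) (F (n - a))

/-- null tensors of weight `n` -/
def TN (E N : ℤ → Submodule k H) (n : ℤ) : Submodule k (H ⊗[k] H) :=
  TZ k N E n ⊔ TZ k E N n

/-- the hypotheses -/
structure IsFW (E N : ℤ → Submodule k H) {m : ℕ} (x : Fin m → H) (w : Fin m → ℤ) : Prop where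
  mono : Monotone E
  one : (1 : H) ∈ E 0
  mulE : ∀ a b, E a * E b ≤ E (a + b)
  NE : ∀ a, N a ≤ E a
  EN : ∀ a b, a < b → E a ≤ N b
  mulN : ∀ a b, N a * E b ≤ N (a + b)
  mulN' : ∀ a b, E a * N b ≤ N (a + b)
  comN : ∀ a, ∀ y ∈ N a, Coalgebra.comul (R := k) y ∈ TN k E N a
  xE : ∀ j, x j ∈ E (w j)
  xP : ∀ j, Coalgebra.comul (R := k) (x j) - x j ⊗ₜ[k] (1 : H) - (1 : H) ⊗ₜ[k] x j ∈ TN k E N (w j)
  x0 : ∀ j, Coalgebra.counit (R := k) (x j) = 0
  N0 : ∀ y ∈ N 0, Coalgebra.counit (R := k) y = 0

end defs

section free
variable (k : Type u) [Field k] {m : ℕ} (w : Fin m → ℤ)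

/-- the word of a list of letters in the free algebra -/
noncomputable def word (l : List (Fin m)) : FreeAlgebra k (Fin m) := (l.map (FreeAlgebra.ι k)).prod

/-- weight of a list -/
def wt (l : List (Fin m)) : ℤ := (l.map w).sum

/-- weight graded version of the free algebra -/
noncomputable def phi : FreeAlgebra k (Fin m) →ₐ[k] AddMonoidAlgebra (FreeAlgebra k (Fin m)) ℤ :=
  FreeAlgebra.lift k (fun j => AddMonoidAlgebra.single (w j) (FreeAlgebra.ι k j))

/-- component of weight `s` -/
noncomputable def comp (s : ℤ) : FreeAlgebra k (Fin m) →ₗ[k] FreeAlgebra k (Fin m) where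
  toFun f := (phi k w f).coeff s
  map_add' f g := by rw [map_add]; rfl
  map_smul' c f := by rw [map_smul]; rfl

/-- span of the words of weight `s` -/
noncomputable def T (s : ℤ) : Submodule k (FreeAlgebra k (Fin m)) :=
  Submodule.span k {f | ∃ l : List (Fin m), wt w l = s ∧ f = word k l}

theorem word_nil : word k ([] : List (Fin m)) = 1 := rfl

theorem word_cons (j : Fin m) (l : List (Fin m)) : word k (j :: l) = FreeAlgebra.ι k j * word k l := by
  simp [word]

theorem word_append (l l' : List (Fin m)) : word k (l ++ l') = word k l * word k l' := by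
  simp [word]

theorem wt_nil : wt w ([] : List (Fin m)) = 0 := rfl

theorem wt_cons (j : Fin m) (l : List (Fin m)) : wt w (j :: l) = w j + wt w l := by
  simp [wt]

theorem wt_append (l l' : List (Fin m)) : wt w (l ++ l') = wt w l + wt w l' := by
  simp [wt]

theorem phi_word (l : List (Fin m)) : phi k w (word k l) = AddMonoidAlgebra.single (wt w l) (word k l) := by
  induction l with
  | nil => rw [word_nil, map_one, wt_nil]; rfl
  | cons j l ih =>
    rw [word_cons, map_mul, ih, wt_cons]
    unfold phi
    rw [FreeAlgebra.lift_ι_apply, AddMonoidAlgebra.single_mul_single]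

theorem comp_word (s : ℤ) (l : List (Fin m)) : comp k w s (word k l) = if wt w l = s then word k l else 0 := by
  show (phi k w (word k l)).coeff s = _
  rw [phi_word, AddMonoidAlgebra.coeff_single, Finsupp.single_apply]

theorem span_word : Submodule.span k (Set.range (word k (m := m))) = ⊤ := by
  rw [eq_top_iff]
  intro f _
  induction f using FreeAlgebra.induction with
  | grade0 r =>
    rw [Algebra.algebraMap_eq_smul_one]
    exact Submodule.smul_mem _ _ (Submodule.subset_span ⟨[], rfl⟩)
  | grade1 j => exact Submodule.subset_span ⟨[j], by simp [word]⟩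
  | mul a b ha hb =>
    have h : Submodule.span k (Set.range (word k (m := m))) * Submodule.span k (Set.range (word k (m := m))) ≤
        Submodule.span k (Set.range (word k (m := m))) := by
      rw [Submodule.span_mul_span, Submodule.span_le]
      rintro _ ⟨_, ⟨l, rfl⟩, _, ⟨l', rfl⟩, rfl⟩
      exact Submodule.subset_span ⟨l ++ l', word_append k l l'⟩
    exact h (Submodule.mul_mem_mul (ha trivial) (hb trivial))
  | add a b ha hb => exact Submodule.add_mem _ (ha trivial) (hb trivial)

theorem word_induction {P : FreeAlgebra k (Fin m) → Prop} (h0 : ∀ l, P (word k l))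
    (hadd : ∀ f g, P f → P g → P (f + g)) (hsmul : ∀ (c : k) f, P f → P (c • f)) (hz : P 0)
    (f : FreeAlgebra k (Fin m)) : P f := by
  have hf : f ∈ Submodule.span k (Set.range (word k (m := m))) := by rw [span_word]; trivial
  induction hf using Submodule.span_induction with
  | mem x hx => obtain ⟨l, rfl⟩ := hx; exact h0 l
  | zero => exact hz
  | add x y _ _ hx hy => exact hadd x y hx hy
  | smul c x _ hx => exact hsmul c x hx

theorem comp_mem (s : ℤ) (f : FreeAlgebra k (Fin m)) : comp k w s f ∈ T k w s := by
  induction f using word_induction (k := k) with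
  | h0 l =>
    rw [comp_word]
    split_ifs with h
    · exact Submodule.subset_span ⟨l, h, rfl⟩
    · exact Submodule.zero_mem _
  | hadd f g hf hg => rw [map_add]; exact Submodule.add_mem _ hf hg
  | hsmul c f hf => rw [map_smul]; exact Submodule.smul_mem _ _ hf
  | hz => rw [map_zero]; exact Submodule.zero_mem _

theorem comp_of_mem {s : ℤ} {f : FreeAlgebra k (Fin m)} (hf : f ∈ T k w s) (r : ℤ) :
    comp k w r f = if s = r then f else 0 := by
  induction hf using Submodule.span_induction with
  | mem x hx => obtain ⟨l, rfl, rfl⟩ := hx; exact comp_word k w r l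
  | zero => simp
  | add x y _ _ hx hy => rw [map_add, hx, hy]; split_ifs <;> simp
  | smul c x _ hx => rw [map_smul, hx]; split_ifs <;> simp

theorem sum_comp (f : FreeAlgebra k (Fin m)) : ∃ S : Finset ℤ, ∀ S', S ⊆ S' → f = ∑ s ∈ S', comp k w s f := by
  induction f using word_induction (k := k) with
  | h0 l =>
    refine ⟨{wt w l}, fun S' hS => ?_⟩
    rw [Finset.sum_congr rfl (fun s _ => comp_word k w s l), Finset.sum_ite_eq, if_pos]
    exact hS (Finset.mem_singleton_self _)
  | hadd f g hf hg =>
    obtain ⟨S, hS⟩ := hf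
    obtain ⟨S', hS'⟩ := hg
    refine ⟨S ∪ S', fun S'' h => ?_⟩
    simp only [map_add, Finset.sum_add_distrib]
    rw [← hS _ (Finset.subset_union_left.trans h), ← hS' _ (Finset.subset_union_right.trans h)]
  | hsmul c f hf =>
    obtain ⟨S, hS⟩ := hf
    refine ⟨S, fun S'' h => ?_⟩
    simp only [map_smul, ← Finset.smul_sum]
    rw [← hS _ h]
  | hz => exact ⟨∅, fun S' _ => by simp⟩

theorem comp_mul (s : ℤ) (f g : FreeAlgebra k (Fin m)) : ∃ (S : Finset ℤ),
    comp k w s (f * g) = ∑ a ∈ S, comp k w a f * comp k w (s - a) g := by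
  obtain ⟨S, hS⟩ := sum_comp k w f
  obtain ⟨S', hS'⟩ := sum_comp k w g
  refine ⟨S, ?_⟩
  conv_lhs => rw [hS S subset_rfl, hS' (S' ∪ S.image (fun a => s - a)) Finset.subset_union_left]
  rw [Finset.sum_mul, map_sum]
  refine Finset.sum_congr rfl fun a ha => ?_
  rw [Finset.mul_sum, map_sum]
  have key : ∀ b, comp k w s (comp k w a f * comp k w b g) =
      if b = s - a then comp k w a f * comp k w b g else 0 := by
    intro b
    have hm : comp k w a f * comp k w b g ∈ T k w (a + b) := by
      have h : T k w a * T k w b ≤ T k w (a + b) := by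
        unfold T
        rw [Submodule.span_mul_span, Submodule.span_le]
        rintro _ ⟨_, ⟨l, h1, rfl⟩, _, ⟨l', h2, rfl⟩, rfl⟩
        exact Submodule.subset_span ⟨l ++ l', by rw [wt_append, h1, h2], (word_append k l l').symm⟩
      exact h (Submodule.mul_mem_mul (comp_mem k w a f) (comp_mem k w b g))
    rw [comp_of_mem k w hm s]
    by_cases h : b = s - a
    · rw [if_pos h, if_pos (by omega)]
    · rw [if_neg h, if_neg (by omega)]
  rw [Finset.sum_congr rfl (fun b _ => key b), Finset.sum_ite_eq', if_pos]
  exact Finset.mem_union_right _ (Finset.mem_image_of_mem _ ha)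

end free

end Pool.Agent.GKF
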