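import Pool.Agent.Lib_helper2.GKF.LET

/-!
# Growth of the filtered algebra and of the quotient
-/

set_option autoImplicit false

universe u v

namespace Pool.Agent.GKF

open TensorProduct Pool.Agent.GK

section lin
variable {k : Type u} [Field k]

theorem finrank_map_add {V W : Type*} [AddCommGroup V] [Module k V] [AddCommGroup W] [Module k W]
    (S : Submodule k V) [Module.Finite k S] (g : V →ₗ[k] W) :
    Module.finrank k ↥(S.map g) + Module.finrank k ↥(S ⊓ LinearMap.ker g) = Module.finrank k S := by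
  have h1 := LinearMap.finrank_range_add_finrank_ker (g.domRestrict S)
  have h2 : LinearMap.range (g.domRestrict S) = S.map g := by
    rw [LinearMap.range_domRestrict]
  have h3 : (LinearMap.ker (g.domRestrict S)).map S.subtype = S ⊓ LinearMap.ker g := by
    ext v
    simp only [Submodule.mem_map, LinearMap.mem_ker, LinearMap.domRestrict_apply, Submodule.subtype_apply,
      Submodule.mem_inf]
    constructor
    · rintro ⟨y, hy, rfl⟩
      exact ⟨y.2, hy⟩
    · rintro ⟨hv, hv'⟩
      exact ⟨⟨v, hv⟩, hv', rfl⟩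
  have h4 : Module.finrank k ↥((LinearMap.ker (g.domRestrict S)).map S.subtype) =
      Module.finrank k ↥(LinearMap.ker (g.domRestrict S)) :=
    (Submodule.equivMapOfInjective S.subtype (Submodule.subtype_injective S) _).finrank_eq.symm
  rw [← h2, ← h3, h4, h1]

theorem finrank_map_eq_of_ker {V W X : Type*} [AddCommGroup V] [Module k V] [AddCommGroup W] [Module k W]
    [AddCommGroup X] [Module k X] (S : Submodule k V) (a : V →ₗ[k] W) (b : V →ₗ[k] X)
    (h : ∀ v ∈ S, a v = 0 ↔ b v = 0) :
    Module.finrank k ↥(S.map a) = Module.finrank k ↥(S.map b) := by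
  have h1 : LinearMap.ker (a.domRestrict S) = LinearMap.ker (b.domRestrict S) := by
    ext v
    rw [LinearMap.mem_ker, LinearMap.mem_ker, LinearMap.domRestrict_apply, LinearMap.domRestrict_apply]
    exact h v v.2
  have e1 := (a.domRestrict S).quotKerEquivRange.finrank_eq
  have e2 := (b.domRestrict S).quotKerEquivRange.finrank_eq
  rw [h1] at e1
  rw [LinearMap.range_domRestrict] at e1 e2
  exact e1.symm.trans e2

end lin

section alg
variable (k : Type u) [Field k] {H : Type v} [Ring H] [Algebra k H] {m : ℕ} (x : Fin m → H) (w : Fin m → ℤ)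

/-- span of `1` and of the letters -/
def Dg : Submodule k H := Submodule.span k (insert (1 : H) (Set.range x))

theorem Dg_one : (1 : Submodule k H) ≤ Dg k x := by
  rw [Submodule.one_le]
  exact Submodule.subset_span (Set.mem_insert _ _)

theorem Dg_fg : (Dg k x).FG := Submodule.fg_span ((Set.finite_range x).insert 1)

theorem Dg_x (j : Fin m) : x j ∈ Dg k x := Submodule.subset_span (Set.mem_insert_of_mem _ ⟨j, rfl⟩)

theorem Dg_mono {a b : ℕ} (h : a ≤ b) : Dg k x ^ a ≤ Dg k x ^ b := by
  obtain ⟨c, rfl⟩ := Nat.exists_eq_add_of_le h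
  rw [pow_add]
  calc Dg k x ^ a = Dg k x ^ a * 1 := (mul_one _).symm
    _ ≤ Dg k x ^ a * Dg k x ^ c := by
      refine mul_le_mul' le_rfl ?_
      calc (1 : Submodule k H) = 1 ^ c := (one_pow c).symm
        _ ≤ Dg k x ^ c := pow_le_pow_left' (Dg_one k x) c

theorem word_mem_pow (l : List (Fin m)) : FreeAlgebra.lift k x (word k l) ∈ Dg k x ^ l.length := by
  induction l with
  | nil =>
    rw [lift_nil, List.length_nil, pow_zero]
    exact Submodule.one_le.1 le_rfl
  | cons j l ih =>
    rw [lift_cons, List.length_cons, pow_succ']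
    exact Submodule.mul_mem_mul (Dg_x k x j) ih

theorem Es_le_pow {s : ℤ} {n : ℕ} (h : ∀ l : List (Fin m), wt w l ≤ s →
    FreeAlgebra.lift k x (word k l) ≠ 0 → l.length ≤ n) : Es k x w s ≤ Dg k x ^ n := by
  unfold Es
  rw [Submodule.span_le]
  rintro _ ⟨l, hl, rfl⟩
  by_cases h0 : FreeAlgebra.lift k x (word k l) = 0
  · rw [h0]; exact Submodule.zero_mem _
  · exact Dg_mono k x (h l hl h0) (word_mem_pow k x l)

theorem pow_le_Es {W : ℕ} (hW : ∀ j, w j ≤ W) (n : ℕ) : Dg k x ^ n ≤ Es k x w ((W : ℤ) * n) := by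
  have h1 : Dg k x ≤ Es k x w W := by
    unfold Dg
    rw [Submodule.span_le, Set.insert_subset_iff]
    refine ⟨Es_mono k x w (Int.natCast_nonneg W) (Es_one k x w), ?_⟩
    rintro _ ⟨j, rfl⟩
    exact Es_mono k x w (hW j) (Es_x k x w j)
  induction n with
  | zero =>
    rw [pow_zero, Nat.cast_zero, mul_zero, Submodule.one_le]
    exact Es_one k x w
  | succ n ih =>
    rw [pow_succ]
    refine (mul_le_mul' ih h1).trans ((Es_mul k x w _ _).trans (le_of_eq ?_))
    rw [Nat.cast_succ, mul_add, mul_one]

/-- words of weight exactly `s` -/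
theorem Es_succ (s : ℤ) : Es k x w s = Es k x w (s - 1) ⊔ (T k w s).map (FreeAlgebra.lift k x).toLinearMap := by
  apply le_antisymm
  · conv_lhs => unfold Es
    rw [Submodule.span_le]
    rintro _ ⟨l, hl, rfl⟩
    rcases lt_or_eq_of_le hl with h | h
    · exact Submodule.mem_sup_left (Submodule.subset_span ⟨l, by omega, rfl⟩)
    · exact Submodule.mem_sup_right (Submodule.mem_map_of_mem (f := (FreeAlgebra.lift k x).toLinearMap)
        (Submodule.subset_span ⟨l, h, rfl⟩))
  · refine sup_le (Es_mono k x w (by omega)) ?_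
    unfold T
    rw [Submodule.map_span_le]
    rintro _ ⟨l, hl, rfl⟩
    exact Submodule.subset_span ⟨l, hl.le, rfl⟩

theorem Es_eq_map (s : ℤ) : Es k x w s =
    (Submodule.span k {f | ∃ l : List (Fin m), wt w l ≤ s ∧ f = word k l}).map
      (FreeAlgebra.lift k x).toLinearMap := by
  apply le_antisymm
  · unfold Es
    rw [Submodule.span_le]
    rintro _ ⟨l, hl, rfl⟩
    exact Submodule.mem_map_of_mem (f := (FreeAlgebra.lift k x).toLinearMap)
        (Submodule.subset_span ⟨l, hl, rfl⟩)
  · rw [Submodule.map_span_le]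
    rintro _ ⟨l, hl, rfl⟩
    exact Submodule.subset_span ⟨l, hl, rfl⟩

/-- one step of the dimension count -/
theorem Es_finrank_succ (s : ℤ) (hfin : (Es k x w s).FG) :
    Module.finrank k ↥(Es k x w s) = Module.finrank k ↥((T k w s).map
      ((Es k x w (s - 1)).mkQ ∘ₗ (FreeAlgebra.lift k x).toLinearMap)) + Module.finrank k ↥(Es k x w (s - 1)) := by
  have := Module.Finite.iff_fg.2 hfin
  have h1 := finrank_map_add (Es k x w s) (Es k x w (s - 1)).mkQ
  rw [Submodule.ker_mkQ, inf_eq_right.2 (Es_mono k x w (by omega : s - 1 ≤ s))] at h1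
  rw [← h1, Es_succ k x w s, Submodule.map_sup, Submodule.mkQ_map_self, bot_sup_eq, Submodule.map_comp]

end alg

section compare
variable (k : Type u) [Field k] {H : Type v} [Ring H] [Algebra k H] {B : Type u} [Ring B] [Algebra k B]
  {m : ℕ} (x : Fin m → H) (w : Fin m → ℤ) (q : FreeAlgebra k (Fin m) →ₐ[k] B)

theorem lift_q : FreeAlgebra.lift k (fun j => q (FreeAlgebra.ι k j)) = q := by
  apply FreeAlgebra.hom_ext
  funext j
  simp

theorem q_word_ne (hq : ∀ f, q f = 0 ↔ ∀ s, FreeAlgebra.lift k x (comp k w s f) ∈ Es k x w (s - 1))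
    (l : List (Fin m)) (h : q (word k l) ≠ 0) : FreeAlgebra.lift k x (word k l) ≠ 0 := by
  intro h0
  apply h
  rw [hq]
  intro s
  rw [comp_word]
  split_ifs
  · rw [h0]; exact Submodule.zero_mem _
  · rw [map_zero]; exact Submodule.zero_mem _

theorem Es_finrank_eq (hq : ∀ f, q f = 0 ↔ ∀ s, FreeAlgebra.lift k x (comp k w s f) ∈ Es k x w (s - 1))
    (e : ℕ) (h0 : ∀ l : List (Fin m), FreeAlgebra.lift k x (word k l) ≠ 0 → -(e : ℤ) ≤ wt w l)
    (hfg : ∀ s, (Es k x w s).FG) (hfgB : ∀ s, (Es k (fun j => q (FreeAlgebra.ι k j)) w s).FG) (s : ℤ) :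
    Module.finrank k ↥(Es k x w s) = Module.finrank k ↥(Es k (fun j => q (FreeAlgebra.ι k j)) w s) := by
  set xB : Fin m → B := fun j => q (FreeAlgebra.ι k j) with hxB
  have hlq : FreeAlgebra.lift k xB = q := lift_q k q
  have hlow : ∀ s, s < -(e : ℤ) → Es k x w s = ⊥ ∧ Es k xB w s = ⊥ := by
    intro s hs
    constructor
    · rw [eq_bot_iff]
      unfold Es
      rw [Submodule.span_le]
      rintro _ ⟨l, hl, rfl⟩
      by_contra hcon
      have := h0 l hcon
      omega
    · rw [eq_bot_iff]
      unfold Es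
      rw [Submodule.span_le]
      rintro _ ⟨l, hl, rfl⟩
      by_contra hcon
      rw [hlq] at hcon
      have := h0 l (q_word_ne k x w q hq l hcon)
      omega
  have hstep : ∀ s, Module.finrank k ↥(Es k x w (s - 1)) = Module.finrank k ↥(Es k xB w (s - 1)) →
      Module.finrank k ↥(Es k x w s) = Module.finrank k ↥(Es k xB w s) := by
    intro s ih
    rw [Es_finrank_succ k x w s (hfg s), Es_finrank_succ k xB w s (hfgB s), ih]
    congr 1
    refine finrank_map_eq_of_ker _ _ _ fun f hf => ?_
    rw [LinearMap.comp_apply, LinearMap.comp_apply, Submodule.mkQ_apply, Submodule.mkQ_apply,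
      Submodule.Quotient.mk_eq_zero, Submodule.Quotient.mk_eq_zero, AlgHom.toLinearMap_apply,
      AlgHom.toLinearMap_apply, hlq]
    constructor
    · intro h1
      have h2 : q f = 0 := by
        rw [hq]
        intro r
        rw [comp_of_mem k w hf r]
        split_ifs with hr
        · rw [← hr]; exact h1
        · rw [map_zero]; exact Submodule.zero_mem _
      rw [h2]
      exact Submodule.zero_mem _
    · intro h1
      rw [Es_eq_map, hlq] at h1
      obtain ⟨g, hg, hgf⟩ := h1
      have h2 : q (f - g) = 0 := by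
        rw [map_sub, sub_eq_zero]
        exact hgf.symm
      have h3 := (hq _).1 h2 s
      have h4 : comp k w s g = 0 := by
        have : (Submodule.span k {f | ∃ l : List (Fin m), wt w l ≤ s - 1 ∧ f = word k l}) ≤
            LinearMap.ker (comp k w s) := by
          rw [Submodule.span_le]
          rintro _ ⟨l, hl, rfl⟩
          rw [SetLike.mem_coe, LinearMap.mem_ker, comp_word, if_neg (by omega)]
        exact this hg
      rw [map_sub, h4, sub_zero, comp_of_mem k w hf s, if_pos rfl] at h3
      exact h3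
  -- induction
  have hind : ∀ n : ℕ, Module.finrank k ↥(Es k x w (-(e : ℤ) - 1 + n)) =
      Module.finrank k ↥(Es k xB w (-(e : ℤ) - 1 + n)) := by
    intro n
    induction n with
    | zero =>
      rw [Nat.cast_zero, add_zero, (hlow _ (by omega)).1, (hlow _ (by omega)).2]
      simp
    | succ n ih =>
      apply hstep
      rw [Nat.cast_succ, show -(e : ℤ) - 1 + (n + 1) - 1 = -(e : ℤ) - 1 + n by ring]
      exact ih
  rcases lt_or_ge s (-(e : ℤ)) with h | h
  · rw [(hlow s h).1, (hlow s h).2]
    simp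
  · have := hind (s + e + 1).toNat
    rwa [Int.toNat_of_nonneg (by omega), show -(e : ℤ) - 1 + (s + e + 1) = s by ring] at this

end compare

end Pool.Agent.GKF
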