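import Pool.Agent.Lib_helper2.GKF.CHN

/-!
# Augmented chain, letters and the filtration by weight
-/

set_option autoImplicit false

universe u v

namespace Pool.Agent.GKF

open TensorProduct Pool.Agent.GK

section plus
variable (k : Type u) [Field k] {H : Type v} [Ring H] [Bialgebra k H]

/-- `x ↦ x - ε(x) 1` -/
noncomputable def aug : H →ₗ[k] H :=
  LinearMap.id - (Algebra.linearMap k H) ∘ₗ (Coalgebra.counit (R := k) (A := H))

theorem aug_apply (x : H) : aug k x = x - Coalgebra.counit (R := k) x • (1 : H) := by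
  simp [aug, Algebra.algebraMap_eq_smul_one]

theorem counit_aug (x : H) : Coalgebra.counit (R := k) (aug k x) = 0 := by
  rw [aug_apply, map_sub, map_smul, Bialgebra.counit_one]
  simp

theorem aug_eq {x : H} (hx : Coalgebra.counit (R := k) x = 0) : aug k x = x := by
  rw [aug_apply, hx, zero_smul, sub_zero]

theorem aug_comul {x : H} (hx : Coalgebra.counit (R := k) x = 0) :
    TensorProduct.map (aug k) (aug k) (Coalgebra.comul (R := k) x) =
      Coalgebra.comul (R := k) x - x ⊗ₜ[k] (1 : H) - (1 : H) ⊗ₜ[k] x := by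
  have h1 : ∀ t : H ⊗[k] H, TensorProduct.map (aug k) (aug k) t = t -
      (TensorProduct.rid k H (LinearMap.lTensor H (Coalgebra.counit (R := k)) t)) ⊗ₜ[k] (1 : H) -
      (1 : H) ⊗ₜ[k] (TensorProduct.lid k H (LinearMap.rTensor H (Coalgebra.counit (R := k)) t)) +
      Coalgebra.counit (R := k) (TensorProduct.lid k H (LinearMap.rTensor H (Coalgebra.counit (R := k)) t)) •
        ((1 : H) ⊗ₜ[k] (1 : H)) := by
    intro t
    induction t with
    | zero => simp
    | tmul a b =>
      simp only [TensorProduct.map_tmul, aug_apply, TensorProduct.sub_tmul, TensorProduct.tmul_sub,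
        LinearMap.lTensor_tmul, LinearMap.rTensor_tmul, TensorProduct.rid_tmul, TensorProduct.lid_tmul,
        ← TensorProduct.smul_tmul', TensorProduct.tmul_smul, map_smul, smul_eq_mul, smul_sub, smul_smul]
      rw [mul_comm (Coalgebra.counit (R := k) b)]
      abel
    | add s t hs ht =>
      simp only [map_add, TensorProduct.add_tmul, TensorProduct.tmul_add, hs, ht, add_smul]
      abel
  rw [h1, Coalgebra.lTensor_counit_comul, Coalgebra.rTensor_counit_comul]
  simp [hx]

/-- the augmented chain -/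
theorem exists_plus (K : Submodule k H) (hKs : IsSubcoalgebra k K) (hK1 : (1 : H) ∈ K)
    (hK : coradical k H ≤ K) (V : Submodule k H) (hV : V.FG) :
    ∃ (r : ℕ) (P : ℕ → Submodule k H), V ≤ Submodule.span k {1} ⊔ P r ∧ (∀ i, (P i).FG) ∧ Monotone P ∧
      P 0 ≤ K ∧ (∀ i, ∀ x ∈ P i, Coalgebra.counit (R := k) x = 0) ∧
      (∀ x ∈ P 0, Coalgebra.comul (R := k) x - x ⊗ₜ[k] (1 : H) - (1 : H) ⊗ₜ[k] x ∈ tsp k (P 0) (P 0)) ∧
      ∀ i, ∀ x ∈ P (i + 1), Coalgebra.comul (R := k) x - x ⊗ₜ[k] (1 : H) - (1 : H) ⊗ₜ[k] x ∈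
        tsp k (P (i + 1)) (P 0) ⊔ tsp k (P 0) (P (i + 1)) ⊔ tsp k (P i) (P i) := by
  obtain ⟨r, D, hVD, hDfg, hmono, h1, hDK, hD0, hD⟩ := exists_chain k K hKs hK1 hK V hV
  have h1' : ∀ i, (1 : H) ∈ D i := fun i => hmono (Nat.zero_le i) h1
  have hcD : ∀ i, (D i).map (aug k) ≤ D i := by
    intro i
    rintro _ ⟨x, hx, rfl⟩
    rw [aug_apply]
    exact (D i).sub_mem hx ((D i).smul_mem _ (h1' i))
  have h0 : ∀ i, ∀ x ∈ (D i).map (aug k), Coalgebra.counit (R := k) x = 0 := by
    rintro i _ ⟨x, _, rfl⟩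
    exact counit_aug k x
  have hmt : ∀ (A B : Submodule k H) (t : H ⊗[k] H), t ∈ tsp k A B →
      TensorProduct.map (aug k) (aug k) t ∈ tsp k (A.map (aug k)) (B.map (aug k)) := fun A B t ht =>
    map_tsp k (fun x hx => Submodule.mem_map_of_mem hx) (fun x hx => Submodule.mem_map_of_mem hx) ht
  refine ⟨r, fun i => (D i).map (aug k), ?_, fun i => (hDfg i).map _, fun i j hij => Submodule.map_mono (hmono hij),
    (hcD 0).trans hDK, h0, ?_, ?_⟩
  · intro x hx
    have : x = Coalgebra.counit (R := k) x • (1 : H) + aug k x := by rw [aug_apply]; abel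
    rw [this]
    exact Submodule.add_mem_sup (Submodule.smul_mem _ _ (Submodule.mem_span_singleton_self 1))
      (Submodule.mem_map_of_mem (hVD hx))
  · intro x hx
    rw [← aug_comul k (h0 0 x hx)]
    exact hmt _ _ _ (hD0 x (hcD 0 hx))
  · intro i x hx
    rw [← aug_comul k (h0 (i + 1) x hx)]
    obtain ⟨t, ht, t3, ht3, h2⟩ := Submodule.mem_sup.1 (hD i x (hcD (i + 1) hx))
    obtain ⟨t1, ht1, t2, ht2, h3⟩ := Submodule.mem_sup.1 ht
    rw [← h2, ← h3, map_add, map_add]
    exact Submodule.add_mem_sup (Submodule.add_mem_sup (hmt _ _ _ ht1) (hmt _ _ _ ht2)) (hmt _ _ _ ht3)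

/-- letters for an increasing family of finite-dimensional spaces -/
theorem exists_letters (r : ℕ) (P : ℕ → Submodule k H) (hP : ∀ i, (P i).FG) :
    ∃ (m : ℕ) (x : Fin m → H) (lv : Fin m → ℕ), (∀ j, lv j ≤ r ∧ x j ∈ P (lv j)) ∧
      ∀ i ≤ r, P i ≤ Submodule.span k {y | ∃ j, lv j = i ∧ y = x j} := by
  choose S hS using hP
  let I := Σ i : Fin (r + 1), {y // y ∈ S i.1}
  let e : I ≃ Fin (Fintype.card I) := Fintype.equivFin I
  refine ⟨Fintype.card I, fun j => (e.symm j).2.1, fun j => (e.symm j).1.1, fun j => ⟨?_, ?_⟩, fun i hi => ?_⟩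
  · have := (e.symm j).1.2
    show ((e.symm j).1 : ℕ) ≤ r
    omega
  · show ((e.symm j).2.1 : H) ∈ P (e.symm j).1.1
    rw [← hS]
    exact Submodule.subset_span (e.symm j).2.2
  · rw [← hS i, Submodule.span_le]
    intro y hy
    refine Submodule.subset_span ⟨e ⟨⟨i, by omega⟩, ⟨y, hy⟩⟩, ?_, ?_⟩
    · simp
    · show y = ((e.symm (e ⟨⟨i, by omega⟩, ⟨y, hy⟩⟩)).2.1 : H)
      rw [Equiv.symm_apply_apply]

end plus

section filt
variable (k : Type u) [Field k] {H : Type v} [Ring H] {m : ℕ}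

section alg
variable [Algebra k H]

/-- span of the values of the words of weight at most `s` -/
noncomputable def Es (x : Fin m → H) (w : Fin m → ℤ) (s : ℤ) : Submodule k H :=
  Submodule.span k {y | ∃ l : List (Fin m), wt w l ≤ s ∧ y = FreeAlgebra.lift k x (word k l)}

variable (x : Fin m → H) (w : Fin m → ℤ)

theorem lift_nil : FreeAlgebra.lift k x (word k ([] : List (Fin m))) = 1 := by rw [word_nil, map_one]

theorem lift_cons (j : Fin m) (l : List (Fin m)) :
    FreeAlgebra.lift k x (word k (j :: l)) = x j * FreeAlgebra.lift k x (word k l) := by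
  rw [word_cons, map_mul, FreeAlgebra.lift_ι_apply]

theorem Es_mono : Monotone (Es k x w) := by
  intro a b hab
  refine Submodule.span_mono ?_
  rintro _ ⟨l, hl, rfl⟩
  exact ⟨l, hl.trans hab, rfl⟩

theorem Es_one : (1 : H) ∈ Es k x w 0 :=
  Submodule.subset_span ⟨[], le_of_eq (wt_nil w), (lift_nil k x).symm⟩

theorem Es_mul (a b : ℤ) : Es k x w a * Es k x w b ≤ Es k x w (a + b) := by
  unfold Es
  rw [Submodule.span_mul_span, Submodule.span_le]
  rintro _ ⟨_, ⟨l, hl, rfl⟩, _, ⟨l', hl', rfl⟩, rfl⟩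
  refine Submodule.subset_span ⟨l ++ l', ?_, ?_⟩
  · rw [wt_append]; omega
  · rw [word_append, map_mul]

theorem Es_x (j : Fin m) : x j ∈ Es k x w (w j) := by
  refine Submodule.subset_span ⟨[j], ?_, ?_⟩
  · rw [wt_cons, wt_nil, add_zero]
  · rw [lift_cons, lift_nil, mul_one]

end alg

variable [Bialgebra k H] (x : Fin m → H) (w : Fin m → ℤ)

theorem TZ_mono {A B A' B' : ℤ → Submodule k H} (hA : ∀ a, A a ≤ A' a) (hB : ∀ a, B a ≤ B' a) (n : ℤ) :
    TZ k A B n ≤ TZ k A' B' n :=
  iSup_mono fun a => tsp_mono k (hA a) (hB _)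

theorem TZ_mono_n {A B : ℤ → Submodule k H} (hB : Monotone B) {n n' : ℤ} (h : n ≤ n') :
    TZ k A B n ≤ TZ k A B n' :=
  iSup_mono fun a => tsp_mono k le_rfl (hB (by omega))

theorem TZ_shift {E : ℤ → Submodule k H} (n : ℤ) : TZ k E E (n - 1) ≤ TZ k (fun s => E (s - 1)) E n := by
  unfold TZ
  refine iSup_le fun a => ?_
  refine le_trans (le_of_eq ?_) (le_iSup (fun a => tsp k (E (a - 1)) (E (n - a))) (a + 1))
  rw [show a + 1 - 1 = a by ring, show n - (a + 1) = n - 1 - a by ring]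

theorem comul_word (hP : ∀ j, Coalgebra.comul (R := k) (x j) - x j ⊗ₜ[k] (1 : H) - (1 : H) ⊗ₜ[k] x j ∈
      TZ k (Es k x w) (Es k x w) (w j - 1)) (l : List (Fin m)) :
    Coalgebra.comul (R := k) (FreeAlgebra.lift k x (word k l)) ∈ TZ k (Es k x w) (Es k x w) (wt w l) := by
  induction l with
  | nil =>
    rw [lift_nil, Bialgebra.comul_one, Algebra.TensorProduct.one_def, wt_nil]
    exact mem_TZ k (Es_one k x w) (Es_one k x w) rfl
  | cons j l ih =>
    rw [lift_cons, Bialgebra.comul_mul, wt_cons]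
    refine TZ_mul k (Es_mul k x w) (Es_mul k x w) (w j) (wt w l) (Submodule.mul_mem_mul ?_ ih)
    have h1 : Coalgebra.comul (R := k) (x j) =
        (Coalgebra.comul (R := k) (x j) - x j ⊗ₜ[k] (1 : H) - (1 : H) ⊗ₜ[k] x j) + x j ⊗ₜ[k] (1 : H) +
          (1 : H) ⊗ₜ[k] x j := by abel
    rw [h1]
    refine Submodule.add_mem _ (Submodule.add_mem _ ?_ ?_) ?_
    · exact TZ_mono_n k (Es_mono k x w) (by omega) (hP j)
    · exact mem_TZ k (Es_x k x w j) (Es_one k x w) (by omega)
    · exact mem_TZ k (Es_one k x w) (Es_x k x w j) (by omega)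

theorem isFW_of (h0 : ∀ j, Coalgebra.counit (R := k) (x j) = 0)
    (hP : ∀ j, Coalgebra.comul (R := k) (x j) - x j ⊗ₜ[k] (1 : H) - (1 : H) ⊗ₜ[k] x j ∈
      TZ k (Es k x w) (Es k x w) (w j - 1)) :
    IsFW k (Es k x w) (fun s => Es k x w (s - 1)) x w where
  mono := Es_mono k x w
  one := Es_one k x w
  mulE := Es_mul k x w
  NE := fun a => Es_mono k x w (by omega)
  EN := fun a b hab => Es_mono k x w (by omega)
  mulN := fun a b => by
    have := Es_mul k x w (a - 1) b
    rwa [show a - 1 + b = a + b - 1 by ring] at this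
  mulN' := fun a b => by
    have := Es_mul k x w a (b - 1)
    rwa [show a + (b - 1) = a + b - 1 by ring] at this
  comN := by
    intro a y hy
    unfold TN
    refine Submodule.mem_sup_left (TZ_shift k a ?_)
    have h1 : Es k x w (a - 1) ≤ (TZ k (Es k x w) (Es k x w) (a - 1)).comap (Coalgebra.comul (R := k)) := by
      conv_lhs => unfold Es
      rw [Submodule.span_le]
      rintro _ ⟨l, hl, rfl⟩
      exact TZ_mono_n k (Es_mono k x w) hl (comul_word k x w hP l)
    exact h1 hy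
  xE := Es_x k x w
  xP := fun j => Submodule.mem_sup_left (TZ_shift k _ (hP j))
  x0 := h0
  N0 := by
    intro y hy
    have h1 : Es k x w (0 - 1) ≤ LinearMap.ker (Coalgebra.counit (R := k) (A := H)) := by
      unfold Es
      rw [Submodule.span_le]
      rintro _ ⟨l, hl, rfl⟩
      rw [SetLike.mem_coe, LinearMap.mem_ker]
      cases l with
      | nil => rw [wt_nil] at hl; omega
      | cons j l => rw [lift_cons, Bialgebra.counit_mul, h0, zero_mul]
    exact h1 hy

end filt

end Pool.Agent.GKF
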