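import Pool.Agent.Lib_helper2.GKF.FIN

/-!
# Bialgebras whose coradical has a locally nilpotent augmentation part
-/

set_option autoImplicit false

universe u v

namespace Pool.Agent.GKF

open TensorProduct Pool.Agent.GK Filter Topology

section
variable (k : Type u) [Field k] {H : Type v} [Ring H] [Bialgebra k H]

/-- weights of the levels -/
def wv (e : ℕ) (i : ℕ) : ℤ := if i = 0 then -1 else (e + 1) * 3 ^ i

theorem wv_succ (e i : ℕ) : wv e (i + 1) = (e + 1) * 3 ^ (i + 1) := by simp [wv]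

theorem wv_zero (e : ℕ) : wv e 0 = -1 := by simp [wv]

theorem wv_double (e i : ℕ) : 2 * wv e i ≤ wv e (i + 1) - 1 := by
  rw [wv_succ]
  have h3 : (1 : ℤ) ≤ 3 ^ i := one_le_pow₀ (by norm_num)
  have he : (0 : ℤ) ≤ e := Int.natCast_nonneg e
  rcases Nat.eq_zero_or_pos i with rfl | hi
  · rw [wv_zero, zero_add, pow_one]
    linarith
  · have : wv e i = (e + 1) * 3 ^ i := by simp [wv]; omega
    rw [this, pow_succ]
    nlinarith [mul_nonneg he (by linarith : (0 : ℤ) ≤ 3 ^ i)]

theorem wv_pos (e i : ℕ) (hi : i ≠ 0) : (e : ℤ) + 1 ≤ wv e i := by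
  have : wv e i = (e + 1) * 3 ^ i := by simp [wv, hi]
  rw [this]
  have h3 : (1 : ℤ) ≤ 3 ^ i := one_le_pow₀ (by norm_num)
  have he : (0 : ℤ) ≤ e := Int.natCast_nonneg e
  nlinarith

theorem wv_le (e : ℕ) {i r : ℕ} (h : i ≤ r) : wv e i ≤ ((e + 1) * 3 ^ r : ℕ) := by
  push_cast
  have h3 : (3 : ℤ) ^ i ≤ 3 ^ r := pow_le_pow_right₀ (by norm_num) h
  have h1 : (1 : ℤ) ≤ 3 ^ i := one_le_pow₀ (by norm_num)
  have he : (0 : ℤ) ≤ e := Int.natCast_nonneg e
  rcases Nat.eq_zero_or_pos i with rfl | hi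
  · rw [wv_zero]
    nlinarith
  · have : wv e i = (e + 1) * 3 ^ i := by simp [wv]; omega
    rw [this]
    exact mul_le_mul_of_nonneg_left h3 (by linarith)

theorem tsp_le_TZ {E : ℤ → Submodule k H} (hE : Monotone E) {A B : Submodule k H} {a b n : ℤ} (hA : A ≤ E a)
    (hB : B ≤ E b) (h : a + b ≤ n) : tsp k A B ≤ TZ k E E n := by
  refine (tsp_mono k hA (hB.trans (hE (by omega : b ≤ n - a)))).trans ?_
  exact le_iSup (fun a => tsp k (E a) (E (n - a))) a

/-- the value for a cofinal family of subspaces -/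
theorem local_val (K : Submodule k H) (hKs : IsSubcoalgebra k K) (hK1 : (1 : H) ∈ K) (hcor : coradical k H ≤ K)
    (hnil : ∀ V : Submodule k H, V.FG → V ≤ K → (∀ x ∈ V, Coalgebra.counit (R := k) x = 0) → ∃ n : ℕ, V ^ n = ⊥)
    (V : Submodule k H) (hV : V.FG) :
    ∃ V' : Submodule k H, V ≤ V' ∧ 1 ≤ V' ∧ V'.FG ∧
      (asm_L k V' = ⊤ ∨ ∃ m : ℕ, asm_L k V' = (m : ENNReal)) := by
  obtain ⟨r, P, hVP, hPfg, hPm, hPK, hPε, hP0, hP1⟩ := exists_plus k K hKs hK1 hcor V hV
  obtain ⟨m, x, lv, hlv, hPx⟩ := exists_letters k r P hPfg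
  obtain ⟨e, he⟩ := hnil (P 0) (hPfg 0) hPK (hPε 0)
  have he' : (P 0) ^ (e + 1) = ⊥ := by rw [pow_succ, he, Submodule.bot_mul]
  set w : Fin m → ℤ := fun j => wv e (lv j) with hw
  -- the levels
  have hPE : ∀ i ≤ r, P i ≤ Es k x w (wv e i) := by
    intro i hi
    refine (hPx i hi).trans ?_
    rw [Submodule.span_le]
    rintro _ ⟨j, rfl, rfl⟩
    exact Es_x k x w j
  have hx0 : ∀ j, Coalgebra.counit (R := k) (x j) = 0 := fun j => hPε _ _ (hlv j).2
  have hxP : ∀ j, Coalgebra.comul (R := k) (x j) - x j ⊗ₜ[k] (1 : H) - (1 : H) ⊗ₜ[k] x j ∈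
      TZ k (Es k x w) (Es k x w) (w j - 1) := by
    intro j
    have hj := hlv j
    rcases hi : lv j with _ | i
    · have h1 : w j = -1 := by rw [hw]; simp only [hi, wv_zero]
      rw [h1]
      rw [hi] at hj
      exact tsp_le_TZ k (Es_mono k x w) (hPE 0 (Nat.zero_le r)) (hPE 0 (Nat.zero_le r))
        (by rw [wv_zero]; norm_num) (hP0 _ hj.2)
    · have h1 : w j = wv e (i + 1) := by rw [hw]; simp only [hi]
      rw [h1]
      rw [hi] at hj
      refine (sup_le (sup_le ?_ ?_) ?_ : _ ≤ TZ k (Es k x w) (Es k x w) (wv e (i + 1) - 1)) (hP1 i _ hj.2)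
      · exact tsp_le_TZ k (Es_mono k x w) (hPE _ hj.1) (hPE 0 (Nat.zero_le r)) (by rw [wv_zero]; omega)
      · exact tsp_le_TZ k (Es_mono k x w) (hPE 0 (Nat.zero_le r)) (hPE _ hj.1) (by rw [wv_zero]; omega)
      · have h2 := wv_double e i
        exact tsp_le_TZ k (Es_mono k x w) (hPE i (by omega)) (hPE i (by omega)) (by omega)
  have hFW := isFW_of k x w hx0 hxP
  obtain ⟨B, _, _, q, hqs, hqc, hq⟩ := exists_quot k hFW
  set c : Fin m → B := fun j => q (FreeAlgebra.ι k j) with hc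
  -- bounds for the words
  have hU : ∀ j, lv j = 0 → x j ∈ P 0 := by
    intro j hj
    have := (hlv j).2
    rwa [hj] at this
  have hw0 : ∀ j, lv j = 0 → w j = -1 := fun j hj => by rw [hw]; simp only [hj, wv_zero]
  have hw1 : ∀ j, lv j ≠ 0 → (e : ℤ) + 1 ≤ w j := fun j hj => wv_pos e _ hj
  have hb := word_bound k x lv w (P 0) e hU he' hw0 hw1
  have hq' : ∀ f, q f = 0 ↔ ∀ s, FreeAlgebra.lift k x (comp k w s f) ∈ Es k x w (s - 1) := hq
  have hbB : ∀ l : List (Fin m), FreeAlgebra.lift k c (word k l) ≠ 0 →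
      -(e : ℤ) ≤ wt w l ∧ (l.length : ℤ) ≤ (e + 1) * (wt w l + e + 1) := by
    intro l hl
    rw [hc, lift_q] at hl
    exact hb l (q_word_ne k x w q hq' l hl)
  -- `Es ≤ D ^ n`
  have hle : ∀ {s : ℤ} {n : ℕ}, ((e : ℤ) + 1) * (s + e + 1) ≤ n → Es k x w s ≤ Dg k x ^ n ∧
      Es k c w s ≤ Dg k c ^ n := by
    intro s n hn
    constructor
    · refine Es_le_pow k x w fun l hl h0 => ?_
      have h1 := (hb l h0).2
      have h2 : ((e : ℤ) + 1) * (wt w l + e + 1) ≤ (e + 1) * (s + e + 1) :=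
        mul_le_mul_of_nonneg_left (by linarith) (by positivity)
      have : (l.length : ℤ) ≤ n := by linarith
      exact_mod_cast this
    · refine Es_le_pow k c w fun l hl h0 => ?_
      have h1 := (hbB l h0).2
      have h2 : ((e : ℤ) + 1) * (wt w l + e + 1) ≤ (e + 1) * (s + e + 1) :=
        mul_le_mul_of_nonneg_left (by linarith) (by positivity)
      have : (l.length : ℤ) ≤ n := by linarith
      exact_mod_cast this
  have hfg : ∀ s, (Es k x w s).FG := by
    intro s
    have h1 := (hle (s := s) (n := (((e : ℤ) + 1) * (s + e + 1)).toNat) (Int.self_le_toNat _)).1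
    have := Module.Finite.iff_fg.2 ((Dg_fg k x).pow (((e : ℤ) + 1) * (s + e + 1)).toNat)
    have := Submodule.finiteDimensional_of_le h1
    exact Module.Finite.iff_fg.1 this
  have hfgB : ∀ s, (Es k c w s).FG := by
    intro s
    have h1 := (hle (s := s) (n := (((e : ℤ) + 1) * (s + e + 1)).toNat) (Int.self_le_toNat _)).2
    have := Module.Finite.iff_fg.2 ((Dg_fg k c).pow (((e : ℤ) + 1) * (s + e + 1)).toNat)
    have := Submodule.finiteDimensional_of_le h1
    exact Module.Finite.iff_fg.1 this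
  have heq := Es_finrank_eq k x w q hq' e (fun l h => (hb l h).1) hfg hfgB
  -- comparison
  set W : ℕ := (e + 1) * 3 ^ r with hW
  have hwW : ∀ j, w j ≤ W := fun j => wv_le e (hlv j).1
  set A : ℕ := (e + 1) * (W + e + 1) with hA
  have hAn : ∀ n : ℕ, 1 ≤ n → ((e : ℤ) + 1) * ((W : ℤ) * n + e + 1) ≤ (A * n : ℕ) := by
    intro n hn
    rw [hA]
    push_cast
    have h1 : (1 : ℤ) ≤ n := by exact_mod_cast hn
    have h2 : (0 : ℤ) ≤ e := Int.natCast_nonneg e
    have h3 : ((e : ℤ) + 1) ≤ (e + 1) * n := by nlinarith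
    nlinarith
  have hfin : ∀ n, Module.Finite k ↥(Dg k x ^ n) := fun n => Module.Finite.iff_fg.2 ((Dg_fg k x).pow n)
  have hfinB : ∀ n, Module.Finite k ↥(Dg k c ^ n) := fun n => Module.Finite.iff_fg.2 ((Dg_fg k c).pow n)
  have hfin' : ∀ s, Module.Finite k ↥(Es k x w s) := fun s => Module.Finite.iff_fg.2 (hfg s)
  have hfinB' : ∀ s, Module.Finite k ↥(Es k c w s) := fun s => Module.Finite.iff_fg.2 (hfgB s)
  refine ⟨Dg k x, ?_, Dg_one k x, Dg_fg k x, ?_⟩
  · refine hVP.trans (sup_le ?_ ?_)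
    · rw [Submodule.span_singleton_le_iff_mem]
      exact Submodule.one_le.1 (Dg_one k x)
    · refine (hPx r le_rfl).trans ?_
      rw [Submodule.span_le]
      rintro _ ⟨j, _, rfl⟩
      exact Dg_x k x j
  · refine asm_L_transfer k (Dg k x) (Dg_one k x) (Dg_fg k x) (fun n => Module.finrank k ↥(Dg k c ^ n)) A
      (Nat.mul_pos (Nat.succ_pos e) (Nat.succ_pos _)) (fun n hn => ?_) (fun n hn => ?_)
      (growth_prim k c hqc)
    · calc Module.finrank k ↥(Dg k x ^ n) ≤ Module.finrank k ↥(Es k x w ((W : ℤ) * n)) :=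
            Submodule.finrank_mono (pow_le_Es k x w hwW n)
        _ = Module.finrank k ↥(Es k c w ((W : ℤ) * n)) := heq _
        _ ≤ _ := Submodule.finrank_mono (hle (hAn n hn)).2
    · calc Module.finrank k ↥(Dg k c ^ n) ≤ Module.finrank k ↥(Es k c w ((W : ℤ) * n)) :=
            Submodule.finrank_mono (pow_le_Es k c w hwW n)
        _ = Module.finrank k ↥(Es k x w ((W : ℤ) * n)) := (heq _).symm
        _ ≤ _ := Submodule.finrank_mono (hle (hAn n hn)).1

theorem coradical_sub : IsSubcoalgebra k (coradical k H) := by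
  intro x hx
  have h1 : coradical k H ≤ (tsp k (coradical k H) (coradical k H)).comap (Coalgebra.comul (R := k)) := by
    refine sSup_le fun D hD => ?_
    intro y hy
    rw [Submodule.mem_comap]
    exact tsp_mono k (le_sSup hD) (le_sSup hD) (hD.1 y hy)
  exact h1 hx

theorem one_mem_coradical : (1 : H) ∈ coradical k H := by
  have h1 : IsSimpleSubcoalgebra k (Submodule.span k {(1 : H)}) := by
    refine ⟨?_, ?_, ?_⟩
    · intro x hx
      obtain ⟨a, rfl⟩ := Submodule.mem_span_singleton.1 hx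
      rw [map_smul, Bialgebra.comul_one, Algebra.TensorProduct.one_def]
      exact Submodule.smul_mem _ _ (tmul_mem_tsp k (Submodule.mem_span_singleton_self _)
        (Submodule.mem_span_singleton_self _))
    · have hnt : Nontrivial H := Bialgebra.nontrivial (R := k)
      rw [Ne, Submodule.span_singleton_eq_bot]
      exact one_ne_zero
    · intro E _ hE
      by_cases h : E = ⊥
      · exact Or.inl h
      · right
        refine le_antisymm hE ?_
        obtain ⟨y, hy, hy0⟩ := (Submodule.ne_bot_iff E).1 h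
        obtain ⟨a, rfl⟩ := Submodule.mem_span_singleton.1 (hE hy)
        have ha : a ≠ 0 := by
          rintro rfl
          exact hy0 (zero_smul _ _)
        rw [Submodule.span_singleton_le_iff_mem]
        have := E.smul_mem a⁻¹ hy
        rwa [smul_smul, inv_mul_cancel₀ ha, one_smul] at this
  exact (le_sSup h1 : _ ≤ coradical k H) (Submodule.mem_span_singleton_self 1)

/-- The theorem. -/
theorem local_main (hnil : ∀ V : Submodule k H, V.FG → V ≤ coradical k H →
      (∀ x ∈ V, Coalgebra.counit (R := k) x = 0) → ∃ n : ℕ, V ^ n = ⊥) :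
    GKdim k H = ⊤ ∨ ∃ m : ℕ, GKdim k H = (m : ENNReal) := by
  have hval := local_val k (coradical k H) (coradical_sub k) (one_mem_coradical k) le_rfl hnil
  let ι := {V : Submodule k H // (1 ≤ V ∧ V.FG) ∧
    (asm_L k V = ⊤ ∨ ∃ m : ℕ, asm_L k V = (m : ENNReal))}
  have hkey : GKdim k H = ⨆ i : ι, asm_L k i.1 := by
    apply le_antisymm
    · refine iSup₂_le (fun V hV => ?_)
      obtain ⟨V', hVV', h1, hfg, hval⟩ := hval V hV.2
      exact (asm_L_mono k hVV' hfg).trans
        (le_iSup (fun i : ι => asm_L k i.1) ⟨V', ⟨h1, hfg⟩, hval⟩)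
    · refine iSup_le (fun i => ?_)
      exact le_iSup₂_of_le i.1 i.2.1 le_rfl
  have : Nonempty ι := by
    obtain ⟨V', hVV', h1, hfg, hval⟩ := hval (⊥ : Submodule k H) Submodule.fg_bot
    exact ⟨⟨V', ⟨h1, hfg⟩, hval⟩⟩
  rw [hkey]
  exact asm_sup _ (fun i => i.2.2)

end

end Pool.Agent.GKF
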