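import Pool.Agent.Lib_helper2.GKF.LOC

/-!
# Pointed bialgebras whose group-likes form a locally finite `p`-group
-/

set_option autoImplicit false

universe u v

namespace Pool.Agent.GKF

open TensorProduct Pool.Agent.GK

section rep
variable {k : Type u} [Field k] (p : ℕ) [Fact p.Prime] [CharP k p] {G : Type*} [Group G] [Finite G]

theorem exists_fixed (hG : IsPGroup p G) {W : Type*} [AddCommGroup W] [Module k W]
    (ρ : G →* Module.End k W) {v : W} (hv : v ≠ 0) : ∃ w : W, w ≠ 0 ∧ ∀ g, ρ g w = w := by
  have hp : ∀ x : W, p • x = 0 := by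
    intro x
    rw [← Nat.cast_smul_eq_nsmul k p x, CharP.cast_eq_zero, zero_smul]
  obtain ⟨_im⟩ : Nonempty (Module (ZMod p) W) := ⟨AddCommGroup.zmodModule hp⟩
  set S : Submodule (ZMod p) W := Submodule.span (ZMod p) (Set.range fun g : G => ρ g v) with hSdef
  have hvS : v ∈ S := by
    rw [hSdef]
    refine Submodule.subset_span (Set.mem_range.2 ⟨1, ?_⟩)
    rw [map_one, Module.End.one_apply]
  have hSfin : Module.Finite (ZMod p) S := Module.Finite.span_of_finite _ (Set.finite_range _)
  have hS : Finite S := Module.finite_of_finite (ZMod p)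
  have hst : ∀ g : G, ∀ x ∈ S, ρ g x ∈ S := by
    intro g x hx
    induction hx using Submodule.span_induction with
    | mem x hx =>
      obtain ⟨h, rfl⟩ := hx
      rw [hSdef]
      refine Submodule.subset_span (Set.mem_range.2 ⟨g * h, ?_⟩)
      rw [map_mul, Module.End.mul_apply]
    | zero => rw [map_zero]; exact S.zero_mem
    | add x y _ _ hx hy => rw [map_add]; exact S.add_mem hx hy
    | smul c x _ hx => rw [ZMod.map_smul (ρ g) c x]; exact S.smul_mem c hx
  let _ : MulAction G S :=
    { smul := fun g s => ⟨ρ g s, hst g s s.2⟩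
      one_smul := fun s => Subtype.ext (by show ρ 1 (s : W) = s; rw [map_one]; rfl)
      mul_smul := fun g h s => Subtype.ext (by show ρ (g * h) (s : W) = ρ g (ρ h s); rw [map_mul]; rfl) }
  have hcard : p ∣ Nat.card S := by
    have h1 : Nat.card S = p ^ Module.finrank (ZMod p) S := by
      have := Module.natCard_eq_pow_finrank (K := ZMod p) (V := S)
      rwa [Nat.card_zmod] at this
    rw [h1]
    refine dvd_pow_self p ?_
    have : Nontrivial S := ⟨⟨v, hvS⟩, 0, fun h => hv (congrArg Subtype.val h)⟩
    exact (Module.finrank_pos (R := ZMod p) (M := S)).ne'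
  obtain ⟨b, hb, hb0⟩ := hG.exists_fixed_point_of_prime_dvd_card_of_fixed_point S hcard (a := 0) (by
    intro g
    apply Subtype.ext
    show ρ g ((0 : S) : W) = _
    rw [Submodule.coe_zero, map_zero])
  refine ⟨b, fun h => hb0 (Subtype.ext h.symm), fun g => ?_⟩
  exact congrArg Subtype.val (hb g)

theorem nil_rep (hG : IsPGroup p G) (n : ℕ) : ∀ (W : Type u) [AddCommGroup W] [Module k W] [Module.Finite k W]
    (ρ : G →* Module.End k W), Module.finrank k W ≤ n → ∀ l : List G, n ≤ l.length →
    (l.map (fun g => ρ g - 1)).prod = 0 := by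
  induction n with
  | zero =>
    intro W _ _ _ ρ hW l hl
    have : Subsingleton W := Module.finrank_zero_iff.1 (Nat.le_zero.1 hW)
    exact LinearMap.ext fun w => Subsingleton.elim _ _
  | succ n ih =>
    intro W _ _ _ ρ hW l hl
    by_cases hnt : ∃ v : W, v ≠ 0
    · obtain ⟨v, hv⟩ := hnt
      obtain ⟨w, hw0, hw⟩ := exists_fixed p hG ρ hv
      cases l with
      | nil => simp at hl
      | cons g l =>
        rw [List.length_cons] at hl
        set F : Submodule k W := Submodule.span k {w} with hF
        have hFρ : ∀ g, F ≤ F.comap (ρ g) := by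
          intro g
          rw [hF, Submodule.span_singleton_le_iff_mem, Submodule.mem_comap, hw]
          exact Submodule.mem_span_singleton_self w
        let ρ' : G →* Module.End k (W ⧸ F) :=
          { toFun := fun g => F.mapQ F (ρ g) (hFρ g)
            map_one' := by
              refine LinearMap.ext fun x => ?_
              obtain ⟨x, rfl⟩ := Submodule.Quotient.mk_surjective F x
              rw [Submodule.mapQ_apply, map_one]
              rfl
            map_mul' := fun g h => by
              refine LinearMap.ext fun x => ?_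
              obtain ⟨x, rfl⟩ := Submodule.Quotient.mk_surjective F x
              rw [Module.End.mul_apply, Submodule.mapQ_apply, Submodule.mapQ_apply, Submodule.mapQ_apply, map_mul]
              rfl }
        have hρ' : ∀ (l : List G) (x : W), (l.map (fun g => ρ' g - 1)).prod (Submodule.Quotient.mk x) =
            Submodule.Quotient.mk ((l.map (fun g => ρ g - 1)).prod x) := by
          intro l
          induction l with
          | nil => intro x; simp
          | cons h l ihl =>
            intro x
            rw [List.map_cons, List.prod_cons, List.map_cons, List.prod_cons, Module.End.mul_apply,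
              Module.End.mul_apply, ihl, LinearMap.sub_apply, LinearMap.sub_apply]
            show F.mapQ F (ρ h) (hFρ h) _ - _ = _
            rw [Submodule.mapQ_apply]
            rfl
        have hfr : Module.finrank k (W ⧸ F) ≤ n := by
          have h1 := Submodule.finrank_quotient_add_finrank F
          have h2 : Module.finrank k F = 1 := finrank_span_singleton hw0
          omega
        have h3 := ih (W ⧸ F) ρ' hfr l (by omega)
        refine LinearMap.ext fun x => ?_
        have h4 : (l.map (fun g => ρ g - 1)).prod x ∈ F := by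
          rw [← Submodule.Quotient.mk_eq_zero, ← hρ', h3]
          rfl
        obtain ⟨c, hc⟩ := Submodule.mem_span_singleton.1 h4
        rw [List.map_cons, List.prod_cons, Module.End.mul_apply, ← hc, LinearMap.sub_apply, map_smul, hw]
        simp
    · push Not at hnt
      exact LinearMap.ext fun w => by rw [hnt w, map_zero, map_zero]

/-- the augmentation part of a finite `p`-group is nilpotent -/
theorem aug_nil (hG : IsPGroup p G) {H : Type v} [Ring H] [Algebra k H] (ρ : G →* H) :
    ∃ n : ℕ, Submodule.span k (Set.range fun g => ρ g - 1) ^ n = ⊥ := by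
  have := Fintype.ofFinite G
  let e : G ≃ Fin (Fintype.card G) := Fintype.equivFin G
  let W := Fin (Fintype.card G) → k
  let lam : G →* Module.End k W :=
    { toFun := fun g => LinearMap.funLeft k k (fun i => e (g⁻¹ * e.symm i))
      map_one' := by
        refine LinearMap.ext fun x => ?_
        funext i
        simp [LinearMap.funLeft_apply]
      map_mul' := fun g h => by
        refine LinearMap.ext fun x => ?_
        funext i
        simp [LinearMap.funLeft_apply, mul_assoc] }
  let Φ : W →ₗ[k] H := Fintype.linearCombination k (fun i => ρ (e.symm i))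
  have hΦ : ∀ (g : G) (x : W), Φ (lam g x) = ρ g * Φ x := by
    intro g x
    show Fintype.linearCombination k (fun i => ρ (e.symm i)) (fun i => x (e (g⁻¹ * e.symm i))) =
      ρ g * Fintype.linearCombination k (fun i => ρ (e.symm i)) x
    rw [Fintype.linearCombination_apply, Fintype.linearCombination_apply, Finset.mul_sum]
    let σ : Fin (Fintype.card G) ≃ Fin (Fintype.card G) := (e.symm.trans (Equiv.mulLeft g⁻¹)).trans e
    refine Fintype.sum_equiv σ _ _ fun i => ?_
    show x (e (g⁻¹ * e.symm i)) • ρ (e.symm i) = ρ g * (x (e (g⁻¹ * e.symm i)) • ρ (e.symm (e (g⁻¹ * e.symm i))))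
    rw [Equiv.symm_apply_apply, map_mul ρ, mul_smul_comm, ← mul_assoc, ← map_mul ρ, mul_inv_cancel, map_one ρ,
      one_mul]
  have hΦl : ∀ (l : List G) (x : W), Φ ((l.map (fun g => lam g - 1)).prod x) =
      (l.map (fun g => ρ g - 1)).prod * Φ x := by
    intro l
    induction l with
    | nil => intro x; simp
    | cons g l ih =>
      intro x
      rw [List.map_cons, List.prod_cons, List.map_cons, List.prod_cons, Module.End.mul_apply, LinearMap.sub_apply,
        Module.End.one_apply, map_sub, hΦ, ih, mul_assoc, sub_mul, one_mul]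
  have hnil := nil_rep p hG (Fintype.card G) W lam (by simp [W])
  have h1 : Φ (Pi.single (e 1) 1) = 1 := by
    show Fintype.linearCombination k (fun i => ρ (e.symm i)) (Pi.single (e 1) 1) = 1
    rw [Fintype.linearCombination_apply_single, Equiv.symm_apply_apply, map_one, one_smul]
  have h2 : ∀ l : List G, l.length = Fintype.card G → (l.map (fun g => ρ g - 1)).prod = 0 := by
    intro l hl
    have := hΦl l (Pi.single (e 1) 1)
    rw [hnil l hl.ge, h1, mul_one, LinearMap.zero_apply, map_zero] at this
    exact this.symm
  refine ⟨Fintype.card G, ?_⟩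
  have h3 : ∀ n : ℕ, Submodule.span k (Set.range fun g => ρ g - 1) ^ n ≤
      Submodule.span k {y | ∃ l : List G, l.length = n ∧ y = (l.map (fun g => ρ g - 1)).prod} := by
    intro n
    induction n with
    | zero =>
      rw [pow_zero, Submodule.one_le]
      exact Submodule.subset_span ⟨[], rfl, rfl⟩
    | succ n ih =>
      rw [pow_succ']
      refine (mul_le_mul' le_rfl ih).trans ?_
      rw [Submodule.span_mul_span, Submodule.span_le]
      rintro _ ⟨_, ⟨g, rfl⟩, _, ⟨l, hl, rfl⟩, rfl⟩
      exact Submodule.subset_span ⟨g :: l, by rw [List.length_cons, hl], by rw [List.map_cons, List.prod_cons]⟩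
  rw [eq_bot_iff]
  refine (h3 _).trans ?_
  rw [Submodule.span_le]
  rintro _ ⟨l, hl, rfl⟩
  rw [h2 l hl]
  exact Submodule.zero_mem _

end rep

section main
variable (k : Type u) [Field k] {H : Type v} [Ring H] [Bialgebra k H]

theorem exists_finset_span {M : Type v} [AddCommGroup M] [Module k M] (V : Submodule k M) (hV : V.FG) (G : Set M)
    (h : V ≤ Submodule.span k G) : ∃ S : Finset M, ↑S ⊆ G ∧ V ≤ Submodule.span k (S : Set M) := by
  classical
  obtain ⟨T, rfl⟩ := hV
  have h1 : ∀ t ∈ T, ∃ S : Finset M, ↑S ⊆ G ∧ t ∈ Submodule.span k (S : Set M) := fun t ht =>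
    Submodule.mem_span_finite_of_mem_span (h (Submodule.subset_span ht))
  choose! f hf using h1
  refine ⟨T.biUnion f, ?_, ?_⟩
  · rw [Finset.coe_biUnion]
    exact Set.iUnion₂_subset fun t ht => (hf t ht).1
  · rw [Submodule.span_le]
    intro t ht
    refine Submodule.span_mono ?_ (hf t ht).2
    intro y hy
    rw [Finset.coe_biUnion]
    exact Set.mem_biUnion ht hy

/-- The coradical of a pointed bialgebra in characteristic `p` whose group-likes form a locally finite `p`-group
has a locally nilpotent augmentation part. -/
theorem pgroup_nil (p : ℕ) [Fact p.Prime] [CharP k p]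
    (hpt : coradical k H ≤ Submodule.span k {g : H | IsGroupLikeElem k g})
    (hG : ∀ S : Finset H, (∀ g ∈ S, IsGroupLikeElem k g) →
      ∃ P : Subgroup Hˣ, Finite P ∧ IsPGroup p P ∧ ∀ g ∈ S, ∃ u ∈ P, (u : H) = g)
    (V : Submodule k H) (hV : V.FG) (hVc : V ≤ coradical k H) (hV0 : ∀ x ∈ V, Coalgebra.counit (R := k) x = 0) :
    ∃ n : ℕ, V ^ n = ⊥ := by
  obtain ⟨S, hS, hVS⟩ := exists_finset_span k V hV _ (hVc.trans hpt)
  obtain ⟨P, hPf, hPp, hP⟩ := hG S fun g hg => hS hg
  let ρ : P →* H := (Units.coeHom H).comp P.subtype
  obtain ⟨n, hn⟩ := aug_nil (k := k) p hPp ρ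
  refine ⟨n, ?_⟩
  have hle : V ≤ Submodule.span k (Set.range fun g => ρ g - 1) := by
    intro v hv
    rw [← aug_eq k (hV0 v hv)]
    have h1 : Submodule.span k (S : Set H) ≤
        (Submodule.span k (Set.range fun g => ρ g - 1)).comap (aug k) := by
      rw [Submodule.span_le]
      intro g hg
      obtain ⟨u, huP, hu⟩ := hP g hg
      rw [SetLike.mem_coe, Submodule.mem_comap, aug_apply, (hS hg : IsGroupLikeElem k g).counit_eq_one, one_smul]
      exact Submodule.subset_span ⟨⟨u, huP⟩, by rw [← hu]; rfl⟩
    exact h1 (hVS hv)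
  rw [eq_bot_iff, ← hn]
  exact pow_le_pow_left' hle n

end main

end Pool.Agent.GKF
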